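import Pool.Agent.TH195.SG.Main

set_option autoImplicit false

/-! Reductions between spectra over classes of structures. -/

namespace Pool.Agent.TH565.OM

open FirstOrder FirstOrder.Language Pool.Agent.TH686.SP Pool.Agent.TH195.SG

/-- inverse images under the size of a disjoint union of powers -/
theorem invY {L : FirstOrder.Language.{0, 0}} (τ : L.Sentence) {S : Type} [Finite S]
    (ar : S → ℕ) (s0 : S) (h0 : ar s0 = 0) :
    ∃ (L' : FirstOrder.Language.{0, 0}) (χ : L'.Sentence), ∀ n : ℕ, 0 < n →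
      ((∃ (M : Type) (S : L'.Structure M), Nat.card M = n ∧ @Sentence.Realize L' M S χ) ↔
        ∃ (M : Type) (S : L.Structure M), Nat.card M = Nat.card (Y ar (Fin n)) ∧
          @Sentence.Realize L M S τ) := by
  obtain ⟨A, hA0⟩ := (Set.finite_range ar).bddAbove
  have hA : ∀ s, ar s ≤ A := fun s => hA0 ⟨s, rfl⟩
  obtain ⟨Q, hQ1, hQ2⟩ := sent_tr (IY (L := L) hA s0) τ
  obtain ⟨χ, hχ⟩ := FD.sent (L := LY L ar) (P := fun M S => Q M S (fun e => e.elim))
    ((hQ1 (α := Empty) (fun e => e)).congr fun M S v => by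
      rw [show (fun i => v i) = (fun e : Empty => (e.elim : M)) from Subsingleton.elim _ _])
  refine ⟨LY L ar, χ, fun n hn => ⟨?_, ?_⟩⟩
  · rintro ⟨X, T, hc, hr⟩
    have : Finite X := Nat.finite_of_card_ne_zero (by omega)
    obtain ⟨x0⟩ := (Nat.card_pos_iff.1 (show 0 < Nat.card X by omega)).1
    obtain ⟨T0, hT0⟩ := repY_down hA s0 h0 x0 T (fun e => e.elim)
    refine ⟨_, T0, ?_, (hQ2 _ T0 X T _ _ hT0).1 ((hχ X T).1 hr)⟩
    have e : X ≃ Fin n := Finite.equivFinOfCardEq hc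
    exact Nat.card_congr (Equiv.sigmaCongrRight fun s => (Equiv.refl (Fin (ar s))).arrowCongr e)
  · rintro ⟨M, S, hc, hr⟩
    have hne : Finite (Y ar (Fin n)) := inferInstance
    have hp : 0 < Nat.card (Y ar (Fin n)) := by
      have : Nonempty (Y ar (Fin n)) := ⟨⟨s0, fun _ => ⟨0, hn⟩⟩⟩
      exact Nat.card_pos
    have : Finite M := Nat.finite_of_card_ne_zero (by rw [hc]; omega)
    let e : M ≃ Y ar (Fin n) :=
      (Finite.equivFinOfCardEq hc).trans (Finite.equivFin _).symm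
    let T0 : L.Structure (Y ar (Fin n)) := e.inducedStructure
    obtain ⟨T, hT⟩ := repY_up hA s0 (⟨0, hn⟩ : Fin n) T0 (fun e => e.elim)
    refine ⟨Fin n, T, Nat.card_fin n, (hχ _ T).2 ((hQ2 _ T0 _ T _ _ hT).2 ?_)⟩
    exact (StrongHomClass.realize_sentence (e.inducedStructureEquiv (L := L)) τ).1 hr

/-- the sorts for `b n + a` -/
def arL (a b : ℕ) : Fin a ⊕ Fin b → ℕ := Sum.elim (fun _ => 0) (fun _ => 1)

theorem card_YL (a b n : ℕ) : Nat.card (Y (arL a b) (Fin n)) = b * n + a := by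
  rw [Nat.card_sigma, Fintype.sum_sum_type]
  simp only [arL, Sum.elim_inl, Sum.elim_inr, Nat.card_fun, Nat.card_fin, pow_zero, pow_one,
    Finset.sum_const, Finset.card_univ, Fintype.card_fin, smul_eq_mul, mul_one]
  ring

/-- inverse images under `b n + a` -/
theorem invL {L : FirstOrder.Language.{0, 0}} (τ : L.Sentence) (a b : ℕ) :
    ∃ (L' : FirstOrder.Language.{0, 0}) (χ : L'.Sentence), ∀ n : ℕ, 0 < n →
      ((∃ (M : Type) (S : L'.Structure M), Nat.card M = n ∧ @Sentence.Realize L' M S χ) ↔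
        ∃ (M : Type) (S : L.Structure M), Nat.card M = b * n + (a + 1) ∧
          @Sentence.Realize L M S τ) := by
  obtain ⟨L', χ, h⟩ := invY τ (arL (a + 1) b) (Sum.inl 0) rfl
  refine ⟨L', χ, fun n hn => ?_⟩
  rw [h n hn, card_YL]

/-- the spectrum over a class of structures -/
def specIn {L : FirstOrder.Language.{0, 0}} (C : ∀ M : Type, L.Structure M → Prop)
    (φ : L.Sentence) : Set ℕ :=
  {n | 0 < n ∧ ∃ (M : Type) (S : L.Structure M), Nat.card M = n ∧ C M S ∧
    @Sentence.Realize L M S φ}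

/-- the complement is a spectrum -/
def Co (A : Set ℕ) : Prop :=
  ∃ (L' : FirstOrder.Language.{0, 0}) (χ : L'.Sentence), ∀ n : ℕ, n ∈ spec χ ↔ (0 < n ∧ n ∉ A)

theorem co_red {A B : Set ℕ} (a b : ℕ) (h : ∀ n, 0 < n → (n ∈ A ↔ b * n + (a + 1) ∈ B))
    (hB : Co B) : Co A := by
  obtain ⟨L1, χ1, h1⟩ := hB
  obtain ⟨L2, χ2, h2⟩ := invL χ1 a b
  refine ⟨L2, χ2, fun n => ?_⟩
  constructor
  · rintro ⟨hn, h3⟩
    refine ⟨hn, fun h4 => ?_⟩
    exact ((h1 (b * n + (a + 1))).1 ⟨by omega, (h2 n hn).1 h3⟩).2 ((h n hn).1 h4)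
  · rintro ⟨hn, h3⟩
    refine ⟨hn, (h2 n hn).2 ((h1 (b * n + (a + 1))).2 ⟨by omega, fun h4 => ?_⟩).2⟩
    exact h3 ((h n hn).2 h4)

/-- spectra over elementary classes are spectra -/
theorem specIn_el {L : FirstOrder.Language.{0, 0}} (C : ∀ M : Type, L.Structure M → Prop)
    (hC : FD (fun M S (_ : Empty → M) => C M S)) (φ : L.Sentence) :
    ∃ χ : L.Sentence, specIn C φ = spec χ := by
  obtain ⟨ψ, hψ⟩ := FD.sent hC
  refine ⟨ψ ⊓ φ, ?_⟩
  ext n
  refine and_congr_right fun _ => exists_congr fun M => exists_congr fun S =>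
    and_congr_right fun _ => ?_
  rw [← hψ M S]
  exact (@Formula.realize_inf L M S Empty ψ φ default).symm

end Pool.Agent.TH565.OM
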