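import Pool.Agent.TH565.OM.Gen

set_option autoImplicit false

/-! Modular lattices of order dimension at most two. -/

namespace Pool.Agent.TH565.OM

open FirstOrder FirstOrder.Language Pool.Agent.TH686.SP Pool.Agent.TH195.SG

/-- `z` is the least upper bound of `x` and `y` -/
def IsSup {M : Type} (r : M → M → Prop) (x y z : M) : Prop :=
  r x z ∧ r y z ∧ ∀ w, r x w → r y w → r z w

/-- `z` is the greatest lower bound of `x` and `y` -/
def IsInf {M : Type} (r : M → M → Prop) (x y z : M) : Prop :=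
  r z x ∧ r z y ∧ ∀ w, r w x → r w y → r w z

/-- Modular lattices, as partially ordered sets: `r` is a (reflexive) partial order, any two
elements have a least upper bound and a greatest lower bound, and the modular law holds: if
`x ≤ z`, then `x ∨ (y ∧ z) = (x ∨ y) ∧ z`. -/
structure ModLat {M : Type} (r : M → M → Prop) : Prop where
  refl : ∀ x, r x x
  antisymm : ∀ x y, r x y → r y x → x = y
  trans : ∀ x y z, r x y → r y z → r x z
  sup : ∀ x y, ∃ z, IsSup r x y z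
  inf : ∀ x y, ∃ z, IsInf r x y z
  modular : ∀ x y z u v w s, r x z → IsInf r y z u → IsSup r x u v → IsSup r x y w →
    IsInf r w z s → v = s

/-- Order dimension at most two: the partial order is the intersection of two linear orders. -/
def Dim2Le {M : Type} (r : M → M → Prop) : Prop :=
  ∃ a b : M → M → Prop, IsStrictTotalOrder M a ∧ IsStrictTotalOrder M b ∧
    ∀ x y, r x y ↔ (x = y ∨ (a x y ∧ b x y))

section fd

variable {L : FirstOrder.Language.{0, 0}} {ρ : ∀ M : Type, L.Structure M → M → M → Prop}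
  (hρ : ∀ {β : Type} (i j : β), FD (fun M S v => ρ M S (v i) (v j))) {α : Type}

include hρ

theorem fd_sup (x y z : α) : FD (fun M S v => IsSup (ρ M S) (v x) (v y) (v z)) :=
  (hρ x z).and ((hρ y z).and
    (FD.all1 (P := fun M S v w => ρ M S (v x) w → ρ M S (v y) w → ρ M S (v z) w)
      ((hρ (Sum.inl x) (Sum.inr ())).imp ((hρ (Sum.inl y) (Sum.inr ())).imp
        (hρ (Sum.inl z) (Sum.inr ()))))))

theorem fd_inf (x y z : α) : FD (fun M S v => IsInf (ρ M S) (v x) (v y) (v z)) :=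
  (hρ z x).and ((hρ z y).and
    (FD.all1 (P := fun M S v w => ρ M S w (v x) → ρ M S w (v y) → ρ M S w (v z))
      ((hρ (Sum.inr ()) (Sum.inl x)).imp ((hρ (Sum.inr ()) (Sum.inl y)).imp
        (hρ (Sum.inr ()) (Sum.inl z))))))

theorem fd_ml : FD (fun M S (_ : α → M) => ModLat (ρ M S)) := by
  have h1 : FD (fun M S (_ : α → M) => ∀ x, ρ M S x x) :=
    FD.all1 (P := fun M S v x => ρ M S x x) (hρ (Sum.inr ()) (Sum.inr ()))
  have h2 : FD (fun M S (_ : α → M) => ∀ b : Fin 2 → M, ρ M S (b 0) (b 1) → ρ M S (b 1) (b 0) →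
      b 0 = b 1) :=
    FD.all (P := fun M S v b => ρ M S (b 0) (b 1) → ρ M S (b 1) (b 0) → b 0 = b 1)
      ((hρ (Sum.inr 0) (Sum.inr 1)).imp ((hρ (Sum.inr 1) (Sum.inr 0)).imp (FD.eq _ _)))
  have h3 : FD (fun M S (_ : α → M) => ∀ b : Fin 3 → M, ρ M S (b 0) (b 1) → ρ M S (b 1) (b 2) →
      ρ M S (b 0) (b 2)) :=
    FD.all (P := fun M S v b => ρ M S (b 0) (b 1) → ρ M S (b 1) (b 2) → ρ M S (b 0) (b 2))
      ((hρ (Sum.inr 0) (Sum.inr 1)).imp ((hρ (Sum.inr 1) (Sum.inr 2)).imp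
        (hρ (Sum.inr 0) (Sum.inr 2))))
  have h4 : FD (fun M S (_ : α → M) => ∀ b : Fin 2 → M, ∃ z, IsSup (ρ M S) (b 0) (b 1) z) :=
    FD.all (P := fun M S v b => ∃ z, IsSup (ρ M S) (b 0) (b 1) z)
      (FD.ex1 (P := fun M S v z => IsSup (ρ M S) (v (Sum.inr 0)) (v (Sum.inr 1)) z)
        (fd_sup hρ (Sum.inl (Sum.inr 0)) (Sum.inl (Sum.inr 1)) (Sum.inr ())))
  have h5 : FD (fun M S (_ : α → M) => ∀ b : Fin 2 → M, ∃ z, IsInf (ρ M S) (b 0) (b 1) z) :=
    FD.all (P := fun M S v b => ∃ z, IsInf (ρ M S) (b 0) (b 1) z)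
      (FD.ex1 (P := fun M S v z => IsInf (ρ M S) (v (Sum.inr 0)) (v (Sum.inr 1)) z)
        (fd_inf hρ (Sum.inl (Sum.inr 0)) (Sum.inl (Sum.inr 1)) (Sum.inr ())))
  have h6 : FD (fun M S (_ : α → M) => ∀ b : Fin 7 → M, ρ M S (b 0) (b 2) →
      IsInf (ρ M S) (b 1) (b 2) (b 3) → IsSup (ρ M S) (b 0) (b 3) (b 4) →
      IsSup (ρ M S) (b 0) (b 1) (b 5) → IsInf (ρ M S) (b 5) (b 2) (b 6) → b 4 = b 6) :=
    FD.all (P := fun M S v b => ρ M S (b 0) (b 2) →
      IsInf (ρ M S) (b 1) (b 2) (b 3) → IsSup (ρ M S) (b 0) (b 3) (b 4) →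
      IsSup (ρ M S) (b 0) (b 1) (b 5) → IsInf (ρ M S) (b 5) (b 2) (b 6) → b 4 = b 6)
      ((hρ (Sum.inr 0) (Sum.inr 2)).imp ((fd_inf hρ (Sum.inr 1) (Sum.inr 2) (Sum.inr 3)).imp
        ((fd_sup hρ (Sum.inr 0) (Sum.inr 3) (Sum.inr 4)).imp
          ((fd_sup hρ (Sum.inr 0) (Sum.inr 1) (Sum.inr 5)).imp
            ((fd_inf hρ (Sum.inr 5) (Sum.inr 2) (Sum.inr 6)).imp (FD.eq _ _))))))
  refine (h1.and (h2.and (h3.and (h4.and (h5.and h6))))).congr fun M S v => ⟨?_, ?_⟩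
  · rintro ⟨a1, a2, a3, a4, a5, a6⟩
    exact ⟨a1, fun x y => a2 ![x, y], fun x y z => a3 ![x, y, z], fun x y => a4 ![x, y],
      fun x y => a5 ![x, y], fun x y z u v w s => a6 ![x, y, z, u, v, w, s]⟩
  · rintro ⟨a1, a2, a3, a4, a5, a6⟩
    exact ⟨a1, fun b => a2 _ _, fun b => a3 _ _ _, fun b => a4 _ _, fun b => a5 _ _,
      fun b => a6 _ _ _ _ _ _ _⟩

end fd

/-- the interpreted relation -/
def rlq {M : Type} (S : LQ.Structure M) : {m : ℕ} → LP.Relations m → (Fin m → M) → Prop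
  | _, RP.lt, u => u 0 = u 1 ∨ (ra M S (u 0) (u 1) ∧ rb M S (u 0) (u 1))

/-- intersection of two linear orders as an interpretation -/
def IL : Itp LP LQ Unit 1 Empty where
  dom _ _ _ _ _ := True
  eqv _ _ _ _ _ w w' := w 0 = w' 0
  rel R _ _ T _ ws := rlq T R (fun i => ws i 0)
  fn f _ _ _ _ _ _ _ := nomatch f
  fd_dom _ _ _ _ := FD.const True
  fd_eqv _ _ _ _ w w' := FD.eq (w 0) (w' 0)
  fd_rel {m} R _ {α} p ws := by
    cases R
    exact (FD.eq (ws 0 0) (ws 1 0)).or ((fd_ra (ws 0 0) (ws 1 0)).and (fd_rb (ws 0 0) (ws 1 0)))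
  fd_fn f _ _ _ _ _ _ := nomatch f

/-- the partial order of two linear orders -/
def rho (M : Type) (S : LQ.Structure M) (x y : M) : Prop := x = y ∨ (ra M S x y ∧ rb M S x y)

theorem fd_rho {α : Type} (i j : α) : FD (fun M S v => rho M S (v i) (v j)) :=
  (FD.eq i j).or ((fd_ra i j).and (fd_rb i j))

/-- modular lattices of dimension at most two -/
def PML (M : Type) (r : M → M → Prop) : Prop := ModLat r ∧ Dim2Le r

/-- spectra over modular lattices of dimension at most two are spectra -/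
theorem pml_spec (ψ : LP.Sentence) : ∃ χ : LQ.Sentence, specC PML ψ = spec χ := by
  obtain ⟨Q, hQ1, hQ2⟩ := sent_tr IL ψ
  obtain ⟨χ, hχ⟩ := FD.sent (L := LQ) (P := fun M S => IsStrictTotalOrder M (ra M S) ∧
      IsStrictTotalOrder M (rb M S) ∧ ModLat (rho M S) ∧ Q M S (fun e => e.elim))
    ((fd_sto fd_ra).and ((fd_sto fd_rb).and ((fd_ml fd_rho).and ((hQ1 (α := Empty)
      (fun e => e)).congr
      fun M S v => by rw [show (fun i => v i) = (fun e : Empty => (e.elim : M)) from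
        Subsingleton.elim _ _]))))
  have hrep : ∀ (M : Type) (S : LQ.Structure M) (S' : LP.Structure M),
      (∀ x y, rl M S' x y ↔ rho M S x y) →
      Rep IL M S' M S (fun e => e.elim) (fun _ w x => w 0 = x) := by
    intro M S S' h
    refine ⟨fun x => ⟨(), fun _ => x, rfl⟩, fun c w => ⟨fun _ => ⟨_, rfl⟩, fun _ => trivial⟩,
      ?_, ?_, ?_⟩
    · intro c c' w w' x x' h1 h2
      show w 0 = w' 0 ↔ _
      rw [h1, h2]
    · intro m R cs ws xs h1
      have e : (fun i => ws i 0) = xs := funext h1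
      show rlq S R (fun i => ws i 0) ↔ _
      rw [e]
      cases R
      have := h (xs 0) (xs 1)
      refine (this.symm).trans ?_
      have e2 : ![xs 0, xs 1] = xs := by
        funext t
        fin_cases t <;> rfl
      show @Structure.RelMap LP M S' 2 RP.lt ![xs 0, xs 1] ↔ _
      rw [e2]
    · intro m f
      exact nomatch f
  refine ⟨χ, ?_⟩
  ext n
  refine and_congr_right fun _ => ⟨?_, ?_⟩
  · rintro ⟨M, S, hc, ⟨hm, a, b, h1, h2, h3⟩, hr⟩
    have e : rho M (of2 a b) = rl M S := by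
      funext x y
      exact propext (h3 x y).symm
    refine ⟨M, of2 a b, hc, (hχ M _).2 ⟨h1, h2, ?_, ?_⟩⟩
    · rw [e]
      exact hm
    · exact (hQ2 M S M (of2 a b) _ _ (hrep M (of2 a b) S h3)).2 hr
  · rintro ⟨M, S, hc, hr⟩
    obtain ⟨h1, h2, h3, h4⟩ := (hχ M S).1 hr
    refine ⟨M, ofl (rho M S), hc, ⟨?_, ?_⟩, ?_⟩
    · rw [rl_ofl]
      exact h3
    · rw [rl_ofl]
      exact ⟨_, _, h1, h2, fun x y => Iff.rfl⟩
    · exact (hQ2 M _ M S _ _ (hrep M S _ fun x y => Iff.rfl)).1 h4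

end Pool.Agent.TH565.OM
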