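import Pool.Agent.TH565.OM.Lat

set_option autoImplicit false

/-! Decoding two linear orders in a partial order which consists of a grid and of one further
element for every row and every column. -/

namespace Pool.Agent.TH565.OM

open FirstOrder FirstOrder.Language Pool.Agent.TH686.SP Pool.Agent.TH195.SG

section

variable {M : Type} (r : M → M → Prop) (c d : M)

/-- `x` is the join of its projections to the two axes -/
def Gd (x : M) : Prop := ∀ h v, IsInf r c x h → IsInf r d x v → IsSup r h v x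

/-- the shape of the coding partial orders; `c` and `d` are the tops of the two axes -/
structure Pl : Prop where
  anti : ∀ x y, r x y → r y x → x = y
  trans : ∀ x y z, r x y → r y z → r x z
  refl : ∀ x, r x x
  chc : ∀ x y, r x c → r y c → r x y ∨ r y x
  chd : ∀ x y, r x d → r y d → r x y ∨ r y x
  pc : ∀ x, ∃ h, IsInf r c x h
  pd : ∀ x, ∃ h, IsInf r d x h
  gr : ∀ h v, r h c → r v d → ∃! x, Gd r c d x ∧ IsInf r c x h ∧ IsInf r d x v
  ec : ∀ h, r h c → h ≠ c → ∃! x, ¬ Gd r c d x ∧ IsInf r c x h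
  ed : ∀ v, r v d → v ≠ d → ∃! x, ¬ Gd r c d x ∧ IsInf r d x v
  nc : ∀ x, ¬ Gd r c d x → ¬ r c x
  nd : ∀ x, ¬ Gd r c d x → ¬ r d x

/-- comparison of the projections to an axis -/
def lt1 (x y : M) : Prop := ∃ h h', IsInf r c x h ∧ IsInf r c y h' ∧ h ≠ h' ∧ r h h'

variable {r c d}

theorem isInf_unique (ha : ∀ x y, r x y → r y x → x = y) {x y z w : M} (h1 : IsInf r x y z)
    (h2 : IsInf r x y w) : z = w :=
  ha _ _ (h2.2.2 _ h1.1 h1.2.1) (h1.2.2 _ h2.1 h2.2.1)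

theorem isSup_unique (ha : ∀ x y, r x y → r y x → x = y) {x y z w : M} (h1 : IsSup r x y z)
    (h2 : IsSup r x y w) : z = w :=
  ha _ _ (h1.2.2 _ h2.1 h2.2.1) (h2.2.2 _ h1.1 h1.2.1)

theorem card_ne [Finite M] {P : M → Prop} (c : M) (hc : P c) :
    Nat.card {h // P h} = Nat.card {h // P h ∧ h ≠ c} + 1 := by
  have : Nat.card {h // P h} = Nat.card (Unit ⊕ {h // P h ∧ h ≠ c}) := by
    symm
    refine Nat.card_eq_of_bijective (Sum.elim (fun _ => (⟨c, hc⟩ : {h // P h}))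
      (fun h => ⟨h.1, h.2.1⟩)) ⟨?_, ?_⟩
    · rintro (⟨⟨⟩⟩ | ⟨x, hx⟩) (⟨⟨⟩⟩ | ⟨y, hy⟩) h <;>
        simp only [Sum.elim_inl, Sum.elim_inr, Subtype.mk.injEq] at h
      · rfl
      · exact absurd h.symm hy.2
      · exact absurd h hx.2
      · subst h
        rfl
    · rintro ⟨x, hx⟩
      by_cases h : x = c
      · subst h
        exact ⟨Sum.inl (), rfl⟩
      · exact ⟨Sum.inr ⟨x, hx, h⟩, rfl⟩
  rw [this, Nat.card_sum, Nat.card_unique]
  ring

/-- the number of the further elements, for one of the axes -/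
theorem card_ax {E : M → Prop} {c : M} (ha : ∀ x y, r x y → r y x → x = y)
    (hp : ∀ x, ∃ h, IsInf r c x h)
    (he : ∀ h, r h c → h ≠ c → ∃! x, E x ∧ IsInf r c x h) (hn : ∀ x, E x → ¬ r c x) :
    Nat.card {x // E x} = Nat.card {h // r h c ∧ h ≠ c} := by
  choose f hf using hp
  refine Nat.card_eq_of_bijective (fun x : {x // E x} => (⟨f x.1, (hf x.1).1, fun h => hn x.1 x.2 (by
    have := (hf x.1).2.1; rwa [h] at this)⟩ : {h // r h c ∧ h ≠ c})) ⟨?_, ?_⟩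
  · rintro ⟨x, hx⟩ ⟨y, hy⟩ hxy
    have e : f x = f y := congrArg Subtype.val hxy
    have h1 : f x ≠ c := fun h => hn x hx (by have := (hf x).2.1; rwa [h] at this)
    obtain ⟨z, -, hz⟩ := he (f x) (hf x).1 h1
    have e1 := hz x ⟨hx, hf x⟩
    have e2 := hz y ⟨hy, by rw [e]; exact hf y⟩
    exact Subtype.ext (e1.trans e2.symm)
  · rintro ⟨h, h1, h2⟩
    obtain ⟨x, ⟨hx, hx2⟩, -⟩ := he h h1 h2
    exact ⟨⟨x, hx⟩, Subtype.ext (isInf_unique ha (hf x) hx2)⟩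

theorem Pl.card [Finite M] (h : Pl r c d) :
    Nat.card M = (Nat.card {x // ¬ Gd r c d x} + 1) * (Nat.card {x // ¬ Gd r c d x} + 1) +
      Nat.card {x // ¬ Gd r c d x} := by
  classical
  have h1 : Nat.card M = Nat.card {x // Gd r c d x} + Nat.card {x // ¬ Gd r c d x} := by
    rw [← Nat.card_sum]
    exact Nat.card_congr (Equiv.sumCompl _).symm
  have h2 := card_ax (E := fun x => ¬ Gd r c d x) h.anti h.pc h.ec h.nc
  have h3 := card_ax (E := fun x => ¬ Gd r c d x) h.anti h.pd h.ed h.nd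
  have h4 := card_ne (P := fun h => r h c) c (h.refl c)
  have h5 := card_ne (P := fun h => r h d) d (h.refl d)
  have h6 : Nat.card {x // Gd r c d x} = Nat.card ({h // r h c} × {v // r v d}) := by
    choose f hf using h.pc
    choose g hg using h.pd
    refine Nat.card_eq_of_bijective (fun x : {x // Gd r c d x} =>
      ((⟨f x.1, (hf x.1).1⟩, ⟨g x.1, (hg x.1).1⟩) : {h // r h c} × {v // r v d})) ⟨?_, ?_⟩
    · rintro ⟨x, hx⟩ ⟨y, hy⟩ hxy
      have e1 : f x = f y := congrArg (fun z => z.1.1) hxy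
      have e2 : g x = g y := congrArg (fun z => z.2.1) hxy
      obtain ⟨z, -, hz⟩ := h.gr (f x) (g x) (hf x).1 (hg x).1
      have e3 := hz x ⟨hx, hf x, hg x⟩
      have e4 := hz y ⟨hy, by rw [e1]; exact hf y, by rw [e2]; exact hg y⟩
      exact Subtype.ext (e3.trans e4.symm)
    · rintro ⟨⟨a, ha⟩, ⟨b, hb⟩⟩
      obtain ⟨x, ⟨hx, hx2, hx3⟩, -⟩ := h.gr a b ha hb
      refine ⟨⟨x, hx⟩, Prod.ext (Subtype.ext ?_) (Subtype.ext ?_)⟩
      · exact isInf_unique h.anti (hf x) hx2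
      · exact isInf_unique h.anti (hg x) hx3
  rw [h1, h6, Nat.card_prod, h4, h5, ← h2, ← h3]

/-- the coded linear orders -/
theorem sto_ax {E : M → Prop} {c : M} (ha : ∀ x y, r x y → r y x → x = y)
    (ht : ∀ x y z, r x y → r y z → r x z)
    (hch : ∀ x y, r x c → r y c → r x y ∨ r y x) (hp : ∀ x, ∃ h, IsInf r c x h)
    (he : ∀ h, r h c → h ≠ c → ∃! x, E x ∧ IsInf r c x h) (hn : ∀ x, E x → ¬ r c x) :
    IsStrictTotalOrder {x // E x} (fun x y => lt1 r c x.1 y.1) := by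
  choose f hf using hp
  have hinj : ∀ x y : {x // E x}, f x.1 = f y.1 → x = y := by
    intro x y e
    have h1 : f x.1 ≠ c := fun h => hn x.1 x.2 (by have := (hf x.1).2.1; rwa [h] at this)
    obtain ⟨z, -, hz⟩ := he (f x.1) (hf x.1).1 h1
    have e1 := hz x.1 ⟨x.2, hf x.1⟩
    have e2 := hz y.1 ⟨y.2, by rw [e]; exact hf y.1⟩
    exact Subtype.ext (e1.trans e2.symm)
  have hl : ∀ x y, lt1 r c x y ↔ (f x ≠ f y ∧ r (f x) (f y)) := by
    intro x y
    constructor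
    · rintro ⟨h, h', h1, h2, h3, h4⟩
      rw [isInf_unique ha (hf x) h1, isInf_unique ha (hf y) h2]
      exact ⟨h3, h4⟩
    · rintro ⟨h1, h2⟩
      exact ⟨_, _, hf x, hf y, h1, h2⟩
  have e1 : ∀ x y : {x // E x}, ¬ lt1 r c x.1 y.1 → ¬ lt1 r c y.1 x.1 → x = y := by
    intro x y h1 h2
    rw [hl] at h1 h2
    by_contra hne
    have h3 : f x.1 ≠ f y.1 := fun h => hne (hinj x y h)
    rcases hch _ _ (hf x.1).1 (hf y.1).1 with h4 | h4
    · exact h1 ⟨h3, h4⟩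
    · exact h2 ⟨h3.symm, h4⟩
  have e2 : ∀ x : {x // E x}, ¬ lt1 r c x.1 x.1 := fun x h => ((hl _ _).1 h).1 rfl
  have e3 : ∀ x y z : {x // E x}, lt1 r c x.1 y.1 → lt1 r c y.1 z.1 → lt1 r c x.1 z.1 := by
    intro x y z h1 h2
    rw [hl] at h1 h2 ⊢
    refine ⟨fun h => h1.1 (ha _ _ h1.2 ?_), ht _ _ _ h1.2 h2.2⟩
    rw [h]
    exact h2.2
  exact { trichotomous := e1, irrefl := e2, trans := e3 }

theorem Pl.dim2 (h : Pl r c d) :
    Dim2 (fun x y : {x // ¬ Gd r c d x} => lt1 r c x.1 y.1 ∧ lt1 r d x.1 y.1) :=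
  ⟨_, _, sto_ax h.anti h.trans h.chc h.pc h.ec h.nc, sto_ax h.anti h.trans h.chd h.pd h.ed h.nd,
    fun _ _ => Iff.rfl⟩

end

section fd

variable {α : Type}

theorem fd_infL (x y z : α) : FD (fun M S v => IsInf (rl M S) (v x) (v y) (v z)) :=
  fd_inf (ρ := rl) fd_lt x y z

theorem fd_Gd (c d x : α) : FD (fun M S v => Gd (rl M S) (v c) (v d) (v x)) :=
  FD.all1 (P := fun M S w h => ∀ v, IsInf (rl M S) (w c) (w x) h → IsInf (rl M S) (w d) (w x) v →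
    IsSup (rl M S) h v (w x)) <|
  FD.all1 (P := fun M S w v => IsInf (rl M S) (w (Sum.inl c)) (w (Sum.inl x)) (w (Sum.inr ())) →
    IsInf (rl M S) (w (Sum.inl d)) (w (Sum.inl x)) v →
    IsSup (rl M S) (w (Sum.inr ())) v (w (Sum.inl x))) <|
  (fd_infL (Sum.inl (Sum.inl c)) (Sum.inl (Sum.inl x)) (Sum.inl (Sum.inr ()))).imp
    ((fd_infL (Sum.inl (Sum.inl d)) (Sum.inl (Sum.inl x)) (Sum.inr ())).imp
      (fd_sup (ρ := rl) fd_lt (Sum.inl (Sum.inr ())) (Sum.inr ()) (Sum.inl (Sum.inl x))))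

theorem fd_lt1 (c x y : α) : FD (fun M S v => lt1 (rl M S) (v c) (v x) (v y)) :=
  FD.ex1 (P := fun M S w h => ∃ h', IsInf (rl M S) (w c) (w x) h ∧
    IsInf (rl M S) (w c) (w y) h' ∧ h ≠ h' ∧ rl M S h h') <|
  FD.ex1 (P := fun M S w h' => IsInf (rl M S) (w (Sum.inl c)) (w (Sum.inl x)) (w (Sum.inr ())) ∧
    IsInf (rl M S) (w (Sum.inl c)) (w (Sum.inl y)) h' ∧ w (Sum.inr ()) ≠ h' ∧
    rl M S (w (Sum.inr ())) h') <|
  (fd_infL (Sum.inl (Sum.inl c)) (Sum.inl (Sum.inl x)) (Sum.inl (Sum.inr ()))).and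
    ((fd_infL (Sum.inl (Sum.inl c)) (Sum.inl (Sum.inl y)) (Sum.inr ())).and
      ((FD.eq (Sum.inl (Sum.inr ())) (Sum.inr ())).not.and
        (fd_lt (Sum.inl (Sum.inr ())) (Sum.inr ()))))

theorem fd_ch (c : α) : FD (fun M S v => ∀ x y, rl M S x (v c) → rl M S y (v c) →
    rl M S x y ∨ rl M S y x) :=
  FD.all1 (P := fun M S v x => ∀ y, rl M S x (v c) → rl M S y (v c) →
    rl M S x y ∨ rl M S y x) <|
  FD.all1 (P := fun M S v y => rl M S (v (Sum.inr ())) (v (Sum.inl c)) → rl M S y (v (Sum.inl c)) →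
    rl M S (v (Sum.inr ())) y ∨ rl M S y (v (Sum.inr ()))) <|
  (fd_lt (Sum.inl (Sum.inr ())) (Sum.inl (Sum.inl c))).imp
    ((fd_lt (Sum.inr ()) (Sum.inl (Sum.inl c))).imp
      ((fd_lt (Sum.inl (Sum.inr ())) (Sum.inr ())).or (fd_lt (Sum.inr ()) (Sum.inl (Sum.inr ())))))

theorem fd_pc (c : α) : FD (fun M S v => ∀ x, ∃ h, IsInf (rl M S) (v c) x h) :=
  FD.all1 (P := fun M S v x => ∃ h, IsInf (rl M S) (v c) x h) <|
  FD.ex1 (P := fun M S v h => IsInf (rl M S) (v (Sum.inl c)) (v (Sum.inr ())) h) <|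
  fd_infL (Sum.inl (Sum.inl c)) (Sum.inl (Sum.inr ())) (Sum.inr ())

theorem fd_ec (c c' d : α) : FD (fun M S v => ∀ h, rl M S h (v c') → h ≠ v c' →
    ∃! x, ¬ Gd (rl M S) (v c) (v d) x ∧ IsInf (rl M S) (v c') x h) :=
  FD.all1 (P := fun M S v h => rl M S h (v c') → h ≠ v c' →
    ∃! x, ¬ Gd (rl M S) (v c) (v d) x ∧ IsInf (rl M S) (v c') x h) <|
  (fd_lt (Sum.inr ()) (Sum.inl c')).imp ((FD.eq (Sum.inr ()) (Sum.inl c')).not.imp <|
    fd_eu (P := fun M S v x => ¬ Gd (rl M S) (v (Sum.inl c)) (v (Sum.inl d)) x ∧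
      IsInf (rl M S) (v (Sum.inl c')) x (v (Sum.inr ())))
      ((fd_Gd (Sum.inl (Sum.inl c)) (Sum.inl (Sum.inl d)) (Sum.inr ())).not.and
        (fd_infL (Sum.inl (Sum.inl c')) (Sum.inr ()) (Sum.inl (Sum.inr ())))))

theorem fd_nc (c c' d : α) : FD (fun M S v => ∀ x, ¬ Gd (rl M S) (v c) (v d) x →
    ¬ rl M S (v c') x) :=
  FD.all1 (P := fun M S v x => ¬ Gd (rl M S) (v c) (v d) x → ¬ rl M S (v c') x) <|
  (fd_Gd (Sum.inl c) (Sum.inl d) (Sum.inr ())).not.imp (fd_lt (Sum.inl c') (Sum.inr ())).not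

theorem fd_gr (c d : α) : FD (fun M S w => ∀ h v, rl M S h (w c) → rl M S v (w d) →
    ∃! x, Gd (rl M S) (w c) (w d) x ∧ IsInf (rl M S) (w c) x h ∧ IsInf (rl M S) (w d) x v) :=
  FD.all1 (P := fun M S w h => ∀ v, rl M S h (w c) → rl M S v (w d) →
    ∃! x, Gd (rl M S) (w c) (w d) x ∧ IsInf (rl M S) (w c) x h ∧ IsInf (rl M S) (w d) x v) <|
  FD.all1 (P := fun M S w v => rl M S (w (Sum.inr ())) (w (Sum.inl c)) →
    rl M S v (w (Sum.inl d)) →
    ∃! x, Gd (rl M S) (w (Sum.inl c)) (w (Sum.inl d)) x ∧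
      IsInf (rl M S) (w (Sum.inl c)) x (w (Sum.inr ())) ∧
      IsInf (rl M S) (w (Sum.inl d)) x v) <|
  (fd_lt (Sum.inl (Sum.inr ())) (Sum.inl (Sum.inl c))).imp <|
  (fd_lt (Sum.inr ()) (Sum.inl (Sum.inl d))).imp <|
  fd_eu (P := fun M S w x => Gd (rl M S) (w (Sum.inl (Sum.inl c))) (w (Sum.inl (Sum.inl d))) x ∧
      IsInf (rl M S) (w (Sum.inl (Sum.inl c))) x (w (Sum.inl (Sum.inr ()))) ∧
      IsInf (rl M S) (w (Sum.inl (Sum.inl d))) x (w (Sum.inr ())))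
    ((fd_Gd (Sum.inl (Sum.inl (Sum.inl c))) (Sum.inl (Sum.inl (Sum.inl d))) (Sum.inr ())).and
      ((fd_infL (Sum.inl (Sum.inl (Sum.inl c))) (Sum.inr ())
        (Sum.inl (Sum.inl (Sum.inr ())))).and
      (fd_infL (Sum.inl (Sum.inl (Sum.inl d))) (Sum.inr ()) (Sum.inl (Sum.inr ())))))

theorem fd_Pl (c d : α) : FD (fun M S v => Pl (rl M S) (v c) (v d)) := by
  have h1 : FD (fun M S (_ : α → M) => ∀ x, rl M S x x) :=
    FD.all1 (P := fun M S v x => rl M S x x) (fd_lt (Sum.inr ()) (Sum.inr ()))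
  have h2 : FD (fun M S (_ : α → M) => ∀ b : Fin 2 → M, rl M S (b 0) (b 1) → rl M S (b 1) (b 0) →
      b 0 = b 1) :=
    FD.all (P := fun M S v b => rl M S (b 0) (b 1) → rl M S (b 1) (b 0) → b 0 = b 1)
      ((fd_lt (Sum.inr 0) (Sum.inr 1)).imp ((fd_lt (Sum.inr 1) (Sum.inr 0)).imp (FD.eq _ _)))
  have h3 : FD (fun M S (_ : α → M) => ∀ b : Fin 3 → M, rl M S (b 0) (b 1) → rl M S (b 1) (b 2) →
      rl M S (b 0) (b 2)) :=
    FD.all (P := fun M S v b => rl M S (b 0) (b 1) → rl M S (b 1) (b 2) → rl M S (b 0) (b 2))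
      ((fd_lt (Sum.inr 0) (Sum.inr 1)).imp ((fd_lt (Sum.inr 1) (Sum.inr 2)).imp
        (fd_lt (Sum.inr 0) (Sum.inr 2))))
  refine (h1.and (h2.and (h3.and ((fd_ch c).and ((fd_ch d).and ((fd_pc c).and ((fd_pc d).and
    ((fd_gr c d).and ((fd_ec c c d).and ((fd_ec c d d).and ((fd_nc c c d).and
      (fd_nc c d d)))))))))))).congr fun M S v => ⟨?_, ?_⟩
  · rintro ⟨a1, a2, a3, a4, a5, a6, a7, a8, a9, a10, a11, a12⟩
    exact ⟨fun x y => a2 ![x, y], fun x y z => a3 ![x, y, z], a1, a4, a5, a6, a7, a8, a9, a10,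
      a11, a12⟩
  · rintro ⟨a2, a3, a1, a4, a5, a6, a7, a8, a9, a10, a11, a12⟩
    exact ⟨a1, fun b => a2 _ _, fun b => a3 _ _ _, a4, a5, a6, a7, a8, a9, a10, a11, a12⟩

end fd

/-- the interpreted relation -/
def rgl {M : Type} (T : LP.Structure M) (c d : M) : {m : ℕ} → LP.Relations m → (Fin m → M) → Prop
  | _, RP.lt, u => lt1 (rl M T) c (u 0) (u 1) ∧ lt1 (rl M T) d (u 0) (u 1)

/-- the interpretation; the parameters are the tops of the axes -/
def IG2 : Itp LP LP Unit 1 Bool where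
  dom _ M T p w := ¬ Gd (rl M T) (p false) (p true) (w 0)
  eqv _ _ _ _ _ w w' := w 0 = w' 0
  rel R _ _ T p ws := rgl T (p false) (p true) R (fun i => ws i 0)
  fn f _ _ _ _ _ _ _ := nomatch f
  fd_dom _ _ p w := (fd_Gd (p false) (p true) (w 0)).not
  fd_eqv _ _ _ _ w w' := FD.eq (w 0) (w' 0)
  fd_rel {m} R _ {α} p ws := by
    cases R
    exact (fd_lt1 (p false) (ws 0 0) (ws 1 0)).and (fd_lt1 (p true) (ws 0 0) (ws 1 0))
  fd_fn f _ _ _ _ _ _ := nomatch f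

theorem rep_IG2 (M : Type) (T : LP.Structure M) (p : Bool → M) (X : Type) (T0 : LP.Structure X)
    (e : X → M) (he : Function.Injective e)
    (hI : ∀ x, ¬ Gd (rl M T) (p false) (p true) x ↔ ∃ y, e y = x)
    (hr : ∀ x y, rl X T0 x y ↔ (lt1 (rl M T) (p false) (e x) (e y) ∧
      lt1 (rl M T) (p true) (e x) (e y))) :
    Rep IG2 X T0 M T p (fun _ w x => w 0 = e x) := by
  refine ⟨fun x => ⟨(), fun _ => e x, rfl⟩, fun c w => ?_, ?_, ?_, ?_⟩
  · show ¬ Gd (rl M T) (p false) (p true) (w 0) ↔ _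
    rw [hI]
    exact ⟨fun ⟨y, hy⟩ => ⟨y, hy.symm⟩, fun ⟨y, hy⟩ => ⟨y, hy.symm⟩⟩
  · intro c c' w w' x x' h1 h2
    show w 0 = w' 0 ↔ _
    rw [h1, h2]
    exact he.eq_iff
  · intro m R cs ws xs h1
    have e1 : (fun i => ws i 0) = fun i => e (xs i) := funext h1
    show rgl T (p false) (p true) R (fun i => ws i 0) ↔ _
    rw [e1]
    cases R
    have := hr (xs 0) (xs 1)
    refine (this.symm).trans ?_
    have e2 : ![xs 0, xs 1] = xs := by
      funext t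
      fin_cases t <;> rfl
    show @Structure.RelMap LP X T0 2 RP.lt ![xs 0, xs 1] ↔ _
    rw [e2]
  · intro m f
    exact nomatch f

/-- **Decoding.** -/
theorem decL (φ : LP.Sentence) : ∃ χ : LP.Sentence,
    (∀ (M : Type) (T : LP.Structure M), Finite M → @Sentence.Realize LP M T χ →
      ∃ (X : Type) (T0 : LP.Structure X), Nat.card M = (Nat.card X + 1) * (Nat.card X + 1) +
        Nat.card X ∧ Dim2 (rl X T0) ∧ @Sentence.Realize LP X T0 φ) ∧
    (∀ (M : Type) (T : LP.Structure M) (c d : M) (X : Type) (T0 : LP.Structure X) (e : X → M),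
      Function.Injective e → (∀ x, ¬ Gd (rl M T) c d x ↔ ∃ y, e y = x) →
      (∀ x y, rl X T0 x y ↔ (lt1 (rl M T) c (e x) (e y) ∧ lt1 (rl M T) d (e x) (e y))) →
      Pl (rl M T) c d → @Sentence.Realize LP X T0 φ → @Sentence.Realize LP M T χ) := by
  obtain ⟨Q, hQ1, hQ2⟩ := sent_tr IG2 φ
  obtain ⟨χ, hχ⟩ := FD.sent (L := LP) (P := fun M S => ∃ p : Bool → M,
      Pl (rl M S) (p false) (p true) ∧ Q M S p)
    (FD.ex (P := fun M S _ p => Pl (rl M S) (p false) (p true) ∧ Q M S p)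
      ((fd_Pl (Sum.inr false) (Sum.inr true)).and
        (hQ1 (α := Empty ⊕ Bool) (fun b => Sum.inr b))))
  refine ⟨χ, ?_, ?_⟩
  · intro M T hM h
    obtain ⟨p, hs, hq⟩ := (hχ M T).1 h
    refine ⟨{x // ¬ Gd (rl M T) (p false) (p true) x}, ofl fun x y =>
      lt1 (rl M T) (p false) x.1 y.1 ∧ lt1 (rl M T) (p true) x.1 y.1, hs.card, ?_, ?_⟩
    · rw [rl_ofl]
      exact hs.dim2
    · exact (hQ2 _ _ M T _ _ (rep_IG2 M T p _ _ Subtype.val
        Subtype.val_injective (fun x => ⟨fun hx => ⟨⟨x, hx⟩, rfl⟩, fun ⟨y, hy⟩ => hy ▸ y.2⟩)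
        (fun x y => Iff.rfl))).1 hq
  · intro M T c d X T0 e he hI hr hs hφ
    exact (hχ M T).2 ⟨fun b => if b then d else c, hs, (hQ2 X T0 M T _ _ (rep_IG2 M T
      (fun b => if b then d else c) X T0 e he hI hr)).2 hφ⟩

end Pool.Agent.TH565.OM
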