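import Pool.Agent.TH565.OM.LatDec

set_option autoImplicit false

/-! Coding two linear orders in a modular lattice of dimension two: a grid, with one further
element in one square of every row and every column. -/

namespace Pool.Agent.TH565.OM

open FirstOrder FirstOrder.Language Pool.Agent.TH686.SP Pool.Agent.TH195.SG

section enc

variable (X : Type) (p q : X → ℕ) (n : ℕ)

/-- the points: a grid and one point for each element -/
abbrev Z : Type := (Fin (n + 1) × Fin (n + 1)) ⊕ X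

/-- the first coordinate -/
def c1 : Z X n → ℕ := Sum.elim (fun g => 2 * g.1.1) (fun x => 2 * p x + 1)

/-- the second coordinate -/
def c2 : Z X n → ℕ := Sum.elim (fun g => 2 * g.2.1) (fun x => 2 * q x + 1)

/-- the partial order -/
def Le (u v : Z X n) : Prop := c1 X p n u ≤ c1 X p n v ∧ c2 X q n u ≤ c2 X q n v

/-- the coordinates are ranks -/
structure Rk : Prop where
  pi : Function.Injective p
  qi : Function.Injective q
  pn : ∀ x, p x < n
  qn : ∀ x, q x < n
  ps : ∀ k < n, ∃ x, p x = k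
  qs : ∀ k < n, ∃ x, q x = k

variable {X p q n}

theorem grd (i j : ℕ) (hi : i ≤ n) (hj : j ≤ n) :
    ∃ u : Z X n, c1 X p n u = 2 * i ∧ c2 X q n u = 2 * j :=
  ⟨Sum.inl (⟨i, by omega⟩, ⟨j, by omega⟩), rfl, rfl⟩

theorem Rk.fact (h : Rk X p q n) (u : Z X n) :
    (c1 X p n u % 2 = 0 ∧ c2 X q n u % 2 = 0 ∧ c1 X p n u ≤ 2 * n ∧ c2 X q n u ≤ 2 * n) ∨
    (c1 X p n u % 2 = 1 ∧ c2 X q n u % 2 = 1 ∧ c1 X p n u < 2 * n ∧ c2 X q n u < 2 * n) := by
  rcases u with ⟨i, j⟩ | x
  · have := i.2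
    have := j.2
    left
    simp only [c1, c2, Sum.elim_inl]
    omega
  · have := h.pn x
    have := h.qn x
    right
    simp only [c1, c2, Sum.elim_inr]
    omega

theorem Rk.pair (h : Rk X p q n) (u v : Z X n) (huv : u ≠ v) :
    (c1 X p n u % 2 = 1 → c1 X p n u ≠ c1 X p n v) ∧
    (c1 X p n u % 2 = 1 → c2 X q n u ≠ c2 X q n v) ∧
    (c1 X p n u ≠ c1 X p n v ∨ c2 X q n u ≠ c2 X q n v) := by
  rcases u with ⟨i, j⟩ | x <;> rcases v with ⟨k, l⟩ | y
  · simp only [c1, c2, Sum.elim_inl]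
    refine ⟨by omega, by omega, ?_⟩
    by_contra h1
    push Not at h1
    have e1 : i = k := Fin.ext (by omega)
    have e2 : j = l := Fin.ext (by omega)
    exact huv (by rw [e1, e2])
  · simp only [c1, c2, Sum.elim_inl, Sum.elim_inr]
    omega
  · simp only [c1, c2, Sum.elim_inl, Sum.elim_inr]
    omega
  · have hxy : x ≠ y := fun e => huv (by rw [e])
    have h1 : p x ≠ p y := fun e => hxy (h.pi e)
    have h2 : q x ≠ q y := fun e => hxy (h.qi e)
    simp only [c1, c2, Sum.elim_inr]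
    omega

theorem Rk.anti (h : Rk X p q n) (u v : Z X n) (h1 : Le X p q n u v) (h2 : Le X p q n v u) :
    u = v := by
  by_contra hne
  have := h.pair u v hne
  obtain ⟨a1, a2⟩ := h1
  obtain ⟨b1, b2⟩ := h2
  omega

theorem Le.rfl' (u : Z X n) : Le X p q n u u := ⟨le_rfl, le_rfl⟩

theorem Le.trans' {u v w : Z X n} (h1 : Le X p q n u v) (h2 : Le X p q n v w) :
    Le X p q n u w := ⟨h1.1.trans h2.1, h1.2.trans h2.2⟩

theorem Rk.sup_inc (h : Rk X p q n) {u v : Z X n} (h1 : ¬ Le X p q n u v)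
    (h2 : ¬ Le X p q n v u) : ∃ s, IsSup (Le X p q n) u v s ∧
      c1 X p n s = 2 * ((max (c1 X p n u) (c1 X p n v) + 1) / 2) ∧
      c2 X q n s = 2 * ((max (c2 X q n u) (c2 X q n v) + 1) / 2) := by
  have fu := h.fact u
  have fv := h.fact v
  obtain ⟨s, hs1, hs2⟩ := grd (X := X) (p := p) (q := q) (n := n)
    ((max (c1 X p n u) (c1 X p n v) + 1) / 2) ((max (c2 X q n u) (c2 X q n v) + 1) / 2)
    (by omega) (by omega)
  refine ⟨s, ⟨⟨by omega, by omega⟩, ⟨by omega, by omega⟩, fun w hu hv => ?_⟩, hs1, hs2⟩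
  have fw := h.fact w
  have n1 : u ≠ w := fun e => h2 (by rw [e]; exact hv)
  have n2 : v ≠ w := fun e => h1 (by rw [e]; exact hu)
  have p1 := h.pair u w n1
  have p2 := h.pair v w n2
  obtain ⟨a1, a2⟩ := hu
  obtain ⟨b1, b2⟩ := hv
  refine ⟨?_, ?_⟩
  · rw [hs1]
    omega
  · rw [hs2]
    omega

theorem Rk.inf_inc (h : Rk X p q n) {u v : Z X n} (h1 : ¬ Le X p q n u v)
    (h2 : ¬ Le X p q n v u) : ∃ s, IsInf (Le X p q n) u v s ∧
      c1 X p n s = 2 * (min (c1 X p n u) (c1 X p n v) / 2) ∧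
      c2 X q n s = 2 * (min (c2 X q n u) (c2 X q n v) / 2) := by
  have fu := h.fact u
  have fv := h.fact v
  obtain ⟨s, hs1, hs2⟩ := grd (X := X) (p := p) (q := q) (n := n)
    (min (c1 X p n u) (c1 X p n v) / 2) (min (c2 X q n u) (c2 X q n v) / 2)
    (by omega) (by omega)
  refine ⟨s, ⟨⟨by omega, by omega⟩, ⟨by omega, by omega⟩, fun w hu hv => ?_⟩, hs1, hs2⟩
  have fw := h.fact w
  have n1 : u ≠ w := fun e => h1 (by rw [e]; exact hv)
  have n2 : v ≠ w := fun e => h2 (by rw [e]; exact hu)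
  have p1 := h.pair u w n1
  have p2 := h.pair v w n2
  obtain ⟨a1, a2⟩ := hu
  obtain ⟨b1, b2⟩ := hv
  refine ⟨?_, ?_⟩
  · rw [hs1]
    omega
  · rw [hs2]
    omega

theorem Rk.val (h : Rk X p q n) {u v s i : Z X n} (h1 : IsSup (Le X p q n) u v s)
    (h2 : IsInf (Le X p q n) u v i) :
    (c1 X p n u + c2 X q n u) + (c1 X p n v + c2 X q n v) =
      (c1 X p n s + c2 X q n s) + (c1 X p n i + c2 X q n i) := by
  by_cases h3 : Le X p q n u v
  · have e1 : s = v := isSup_unique h.anti h1 ⟨h3, Le.rfl' v, fun w _ hw => hw⟩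
    have e2 : i = u := isInf_unique h.anti h2 ⟨Le.rfl' u, h3, fun w hw _ => hw⟩
    rw [e1, e2]
    omega
  by_cases h4 : Le X p q n v u
  · have e1 : s = u := isSup_unique h.anti h1 ⟨Le.rfl' u, h4, fun w hw _ => hw⟩
    have e2 : i = v := isInf_unique h.anti h2 ⟨h4, Le.rfl' v, fun w _ hw => hw⟩
    rw [e1, e2]
  · obtain ⟨s', hs, hs1, hs2⟩ := h.sup_inc h3 h4
    obtain ⟨i', hi, hi1, hi2⟩ := h.inf_inc h3 h4
    have e1 : s = s' := isSup_unique h.anti h1 hs
    have e2 : i = i' := isInf_unique h.anti h2 hi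
    have fu := h.fact u
    have fv := h.fact v
    have hne : u ≠ v := fun e => h3 (by rw [e]; exact Le.rfl' v)
    have p1 := h.pair u v hne
    have p2 := h.pair v u hne.symm
    rw [e1, e2, hs1, hs2, hi1, hi2]
    unfold Le at h3 h4
    clear e1 e2 hs1 hs2 hi1 hi2 hs hi h1 h2
    generalize c1 X p n u = a at *
    generalize c2 X q n u = b at *
    generalize c1 X p n v = a' at *
    generalize c2 X q n v = b' at *
    rcases fu with fu | fu <;> rcases fv with fv | fv <;>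
      rcases le_total a a' with m1 | m1 <;> rcases le_total b b' with m2 | m2 <;>
      simp only [m1, m2, max_eq_left, max_eq_right, min_eq_left, min_eq_right] <;> omega

theorem Rk.ml (h : Rk X p q n) : ModLat (Le X p q n) := by
  have hsup : ∀ x y, ∃ z, IsSup (Le X p q n) x y z := by
    intro x y
    by_cases h3 : Le X p q n x y
    · exact ⟨y, h3, Le.rfl' y, fun w _ hw => hw⟩
    by_cases h4 : Le X p q n y x
    · exact ⟨x, Le.rfl' x, h4, fun w hw _ => hw⟩
    obtain ⟨s, hs, -⟩ := h.sup_inc h3 h4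
    exact ⟨s, hs⟩
  have hinf : ∀ x y, ∃ z, IsInf (Le X p q n) x y z := by
    intro x y
    by_cases h3 : Le X p q n x y
    · exact ⟨x, Le.rfl' x, h3, fun w hw _ => hw⟩
    by_cases h4 : Le X p q n y x
    · exact ⟨y, h4, Le.rfl' y, fun w _ hw => hw⟩
    obtain ⟨s, hs, -⟩ := h.inf_inc h3 h4
    exact ⟨s, hs⟩
  refine ⟨Le.rfl', h.anti, fun x y z h1 h2 => h1.trans' h2, hsup, hinf, ?_⟩
  intro x y z u v w s hxz hu hv hw hs
  obtain ⟨i, hi⟩ := hinf x y
  obtain ⟨t, ht⟩ := hsup y z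
  have hi' : IsInf (Le X p q n) x u i := ⟨hi.1, hu.2.2 _ hi.2.1 (hi.1.trans' hxz),
    fun k h1 h2 => hi.2.2 _ h1 (h2.trans' hu.1)⟩
  have ht' : IsSup (Le X p q n) w z t := ⟨hw.2.2 _ (hxz.trans' ht.2.1) ht.1, ht.2.1,
    fun k h1 h2 => ht.2.2 _ (hw.2.1.trans' h1) h2⟩
  have e1 := h.val hw hi
  have e2 := h.val hv hi'
  have e3 := h.val ht hu
  have e4 := h.val ht' hs
  have hvs : Le X p q n v s := hs.2.2 _ (hv.2.2 _ hw.1 (hu.1.trans' hw.2.1))
    (hv.2.2 _ hxz hu.2.1)
  by_contra hne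
  have p1 := h.pair v s hne
  obtain ⟨a1, a2⟩ := hvs
  omega

theorem Rk.dim (h : Rk X p q n) : Dim2Le (Le X p q n) := by
  refine ⟨fun u v => c1 X p n u < c1 X p n v ∨ (c1 X p n u = c1 X p n v ∧ c2 X q n u < c2 X q n v),
    fun u v => c2 X q n u < c2 X q n v ∨ (c2 X q n u = c2 X q n v ∧ c1 X p n u < c1 X p n v),
    ?_, ?_, ?_⟩
  · have e1 : ∀ u v : Z X n, ¬ (c1 X p n u < c1 X p n v ∨
        (c1 X p n u = c1 X p n v ∧ c2 X q n u < c2 X q n v)) → ¬ (c1 X p n v < c1 X p n u ∨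
        (c1 X p n v = c1 X p n u ∧ c2 X q n v < c2 X q n u)) → u = v := by
      intro u v h1 h2
      by_contra hne
      have := h.pair u v hne
      omega
    exact { trichotomous := e1, irrefl := fun u => by omega, trans := fun u v w h1 h2 => by omega }
  · have e1 : ∀ u v : Z X n, ¬ (c2 X q n u < c2 X q n v ∨
        (c2 X q n u = c2 X q n v ∧ c1 X p n u < c1 X p n v)) → ¬ (c2 X q n v < c2 X q n u ∨
        (c2 X q n v = c2 X q n u ∧ c1 X p n v < c1 X p n u)) → u = v := by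
      intro u v h1 h2
      by_contra hne
      have := h.pair u v hne
      omega
    exact { trichotomous := e1, irrefl := fun u => by omega, trans := fun u v w h1 h2 => by omega }
  · intro u v
    constructor
    · rintro ⟨h1, h2⟩
      by_cases e : u = v
      · exact Or.inl e
      · have := h.pair u v e
        right
        constructor
        · omega
        · omega
    · rintro (rfl | ⟨h1, h2⟩)
      · exact Le.rfl' u
      · exact ⟨by omega, by omega⟩

end enc

end Pool.Agent.TH565.OM
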