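import Pool.Agent.TH565.OM.LatEnc

set_option autoImplicit false

/-! The reduction to modular lattices of dimension two. -/

namespace Pool.Agent.TH565.OM

open FirstOrder FirstOrder.Language Pool.Agent.TH686.SP Pool.Agent.TH195.SG

section

variable {X : Type} {p q : X → ℕ} {n : ℕ}

theorem Rk.infC (h : Rk X p q n) {c : Z X n} (hc1 : c1 X p n c = 2 * n) (hc2 : c2 X q n c = 0)
    (x k : Z X n) : IsInf (Le X p q n) c x k ↔
      (c1 X p n k = 2 * (c1 X p n x / 2) ∧ c2 X q n k = 0) := by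
  have key : ∀ k, (c1 X p n k = 2 * (c1 X p n x / 2) ∧ c2 X q n k = 0) →
      IsInf (Le X p q n) c x k := by
    rintro k ⟨h1, h2⟩
    have fx := h.fact x
    refine ⟨⟨by omega, by omega⟩, ⟨by omega, by omega⟩, fun w hw hw' => ?_⟩
    have fw := h.fact w
    obtain ⟨a1, a2⟩ := hw
    obtain ⟨b1, b2⟩ := hw'
    exact ⟨by omega, by omega⟩
  refine ⟨fun h1 => ?_, key k⟩
  have fx := h.fact x
  obtain ⟨k', a1, a2⟩ := grd (X := X) (p := p) (q := q) (n := n) (c1 X p n x / 2) 0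
    (by omega) (by omega)
  have e : k = k' := isInf_unique h.anti h1 (key k' ⟨a1, a2⟩)
  rw [e]
  exact ⟨a1, a2⟩

theorem Rk.infD (h : Rk X p q n) {d : Z X n} (hd1 : c1 X p n d = 0) (hd2 : c2 X q n d = 2 * n)
    (x k : Z X n) : IsInf (Le X p q n) d x k ↔
      (c1 X p n k = 0 ∧ c2 X q n k = 2 * (c2 X q n x / 2)) := by
  have key : ∀ k, (c1 X p n k = 0 ∧ c2 X q n k = 2 * (c2 X q n x / 2)) →
      IsInf (Le X p q n) d x k := by
    rintro k ⟨h1, h2⟩
    have fx := h.fact x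
    refine ⟨⟨by omega, by omega⟩, ⟨by omega, by omega⟩, fun w hw hw' => ?_⟩
    have fw := h.fact w
    obtain ⟨a1, a2⟩ := hw
    obtain ⟨b1, b2⟩ := hw'
    exact ⟨by omega, by omega⟩
  refine ⟨fun h1 => ?_, key k⟩
  have fx := h.fact x
  obtain ⟨k', a1, a2⟩ := grd (X := X) (p := p) (q := q) (n := n) 0 (c2 X q n x / 2)
    (by omega) (by omega)
  have e : k = k' := isInf_unique h.anti h1 (key k' ⟨a1, a2⟩)
  rw [e]
  exact ⟨a1, a2⟩

theorem Rk.gd (h : Rk X p q n) {c d : Z X n} (hc1 : c1 X p n c = 2 * n) (hc2 : c2 X q n c = 0)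
    (hd1 : c1 X p n d = 0) (hd2 : c2 X q n d = 2 * n) (x : Z X n) :
    Gd (Le X p q n) c d x ↔ c1 X p n x % 2 = 0 := by
  have fx := h.fact x
  constructor
  · intro hg
    obtain ⟨k, a1, a2⟩ := grd (X := X) (p := p) (q := q) (n := n) (c1 X p n x / 2) 0
      (by omega) (by omega)
    obtain ⟨l, b1, b2⟩ := grd (X := X) (p := p) (q := q) (n := n) 0 (c2 X q n x / 2)
      (by omega) (by omega)
    obtain ⟨w, d1, d2⟩ := grd (X := X) (p := p) (q := q) (n := n) (c1 X p n x / 2)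
      (c2 X q n x / 2) (by omega) (by omega)
    have h1 := hg k l ((h.infC hc1 hc2 x k).2 ⟨a1, by omega⟩)
      ((h.infD hd1 hd2 x l).2 ⟨by omega, b2⟩)
    have h2 := h1.2.2 w ⟨by omega, by omega⟩ ⟨by omega, by omega⟩
    obtain ⟨h3, -⟩ := h2
    omega
  · intro he k l hk hl
    obtain ⟨a1, a2⟩ := (h.infC hc1 hc2 x k).1 hk
    obtain ⟨b1, b2⟩ := (h.infD hd1 hd2 x l).1 hl
    refine ⟨⟨by omega, by omega⟩, ⟨by omega, by omega⟩, fun w hw hw' => ?_⟩
    obtain ⟨f1, f2⟩ := hw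
    obtain ⟨g1, g2⟩ := hw'
    exact ⟨by omega, by omega⟩

theorem eq_of (h : Rk X p q n) {u v : Z X n} (h1 : c1 X p n u = c1 X p n v)
    (h2 : c2 X q n u = c2 X q n v) : u = v := by
  by_contra hne
  have := h.pair u v hne
  omega

theorem eq_of1 (h : Rk X p q n) {u v : Z X n} (h0 : c1 X p n u % 2 = 1)
    (h1 : c1 X p n u = c1 X p n v) : u = v := by
  by_contra hne
  have := h.pair u v hne
  omega

theorem eq_of2 (h : Rk X p q n) {u v : Z X n} (h0 : c1 X p n u % 2 = 1)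
    (h1 : c2 X q n u = c2 X q n v) : u = v := by
  by_contra hne
  have := h.pair u v hne
  omega

theorem Rk.pl (h : Rk X p q n) {c d : Z X n} (hc1 : c1 X p n c = 2 * n) (hc2 : c2 X q n c = 0)
    (hd1 : c1 X p n d = 0) (hd2 : c2 X q n d = 2 * n) : Pl (Le X p q n) c d := by
  have hC := h.infC hc1 hc2
  have hD := h.infD hd1 hd2
  have hG := h.gd hc1 hc2 hd1 hd2
  refine ⟨h.anti, fun x y z h1 h2 => h1.trans' h2, Le.rfl', ?_, ?_, ?_, ?_, ?_, ?_, ?_, ?_, ?_⟩
  · rintro x y ⟨a1, a2⟩ ⟨b1, b2⟩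
    rcases le_total (c1 X p n x) (c1 X p n y) with h1 | h1
    · exact Or.inl ⟨h1, by omega⟩
    · exact Or.inr ⟨h1, by omega⟩
  · rintro x y ⟨a1, a2⟩ ⟨b1, b2⟩
    rcases le_total (c2 X q n x) (c2 X q n y) with h1 | h1
    · exact Or.inl ⟨by omega, h1⟩
    · exact Or.inr ⟨by omega, h1⟩
  · intro x
    have fx := h.fact x
    obtain ⟨k, a1, a2⟩ := grd (X := X) (p := p) (q := q) (n := n) (c1 X p n x / 2) 0
      (by omega) (by omega)
    exact ⟨k, (hC x k).2 ⟨a1, by omega⟩⟩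
  · intro x
    have fx := h.fact x
    obtain ⟨k, a1, a2⟩ := grd (X := X) (p := p) (q := q) (n := n) 0 (c2 X q n x / 2)
      (by omega) (by omega)
    exact ⟨k, (hD x k).2 ⟨by omega, a2⟩⟩
  · rintro k l ⟨a1, a2⟩ ⟨b1, b2⟩
    have fk := h.fact k
    have fl := h.fact l
    obtain ⟨x, e1, e2⟩ := grd (X := X) (p := p) (q := q) (n := n) (c1 X p n k / 2)
      (c2 X q n l / 2) (by omega) (by omega)
    refine ⟨x, ⟨(hG x).2 (by omega), (hC x k).2 ⟨by omega, by omega⟩,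
      (hD x l).2 ⟨by omega, by omega⟩⟩, ?_⟩
    rintro y ⟨h1, h2, h3⟩
    have g1 := (hG y).1 h1
    obtain ⟨g2, g3⟩ := (hC y k).1 h2
    obtain ⟨g4, g5⟩ := (hD y l).1 h3
    have fy := h.fact y
    exact eq_of h (by omega) (by omega)
  · rintro k ⟨a1, a2⟩ hk
    have fk := h.fact k
    have hlt : c1 X p n k / 2 < n := by
      by_contra hge
      exact hk (eq_of h (by omega) (by omega))
    obtain ⟨x, hx⟩ := h.ps _ hlt
    have e1 : c1 X p n (Sum.inr x) = 2 * (c1 X p n k / 2) + 1 := by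
      simp only [c1, Sum.elim_inr]
      simp only [c1] at hx
      omega
    refine ⟨Sum.inr x, ⟨fun hg => ?_, (hC _ k).2 ⟨by omega, by omega⟩⟩, ?_⟩
    · have := (hG _).1 hg
      omega
    · rintro y ⟨h1, h2⟩
      have g1 : ¬ (c1 X p n y % 2 = 0) := fun h' => h1 ((hG y).2 h')
      obtain ⟨g2, g3⟩ := (hC y k).1 h2
      exact eq_of1 h (by omega) (by omega)
  · rintro k ⟨a1, a2⟩ hk
    have fk := h.fact k
    have hlt : c2 X q n k / 2 < n := by
      by_contra hge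
      exact hk (eq_of h (by omega) (by omega))
    obtain ⟨x, hx⟩ := h.qs _ hlt
    have e1 : c2 X q n (Sum.inr x) = 2 * (c2 X q n k / 2) + 1 := by
      simp only [c2, Sum.elim_inr]
      simp only [c2] at hx
      omega
    have fx := h.fact (Sum.inr x)
    refine ⟨Sum.inr x, ⟨fun hg => ?_, (hD _ k).2 ⟨by omega, by omega⟩⟩, ?_⟩
    · have := (hG _).1 hg
      omega
    · rintro y ⟨h1, h2⟩
      have g1 : ¬ (c1 X p n y % 2 = 0) := fun h' => h1 ((hG y).2 h')
      obtain ⟨g2, g3⟩ := (hD y k).1 h2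
      have fy := h.fact y
      exact eq_of2 h (by omega) (by omega)
  · rintro x h1 ⟨a1, a2⟩
    have fx := h.fact x
    exact h1 ((hG x).2 (by omega))
  · rintro x h1 ⟨a1, a2⟩
    have fx := h.fact x
    exact h1 ((hG x).2 (by omega))

theorem Rk.l1 (h : Rk X p q n) {c : Z X n} (hc1 : c1 X p n c = 2 * n) (hc2 : c2 X q n c = 0)
    (x y : X) : lt1 (Le X p q n) c (Sum.inr x) (Sum.inr y) ↔ p x < p y := by
  have ex : ∀ x : X, c1 X p n (Sum.inr x) = 2 * p x + 1 := fun x => rfl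
  constructor
  · rintro ⟨k, k', h1, h2, h3, h4, h5⟩
    obtain ⟨a1, a2⟩ := (h.infC hc1 hc2 _ k).1 h1
    obtain ⟨b1, b2⟩ := (h.infC hc1 hc2 _ k').1 h2
    rw [ex] at a1 b1
    by_contra hge
    exact h3 (eq_of h (by omega) (by omega))
  · intro hlt
    have := h.pn x
    have := h.pn y
    obtain ⟨k, a1, a2⟩ := grd (X := X) (p := p) (q := q) (n := n) (p x) 0 (by omega) (by omega)
    obtain ⟨k', b1, b2⟩ := grd (X := X) (p := p) (q := q) (n := n) (p y) 0 (by omega) (by omega)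
    refine ⟨k, k', (h.infC hc1 hc2 _ k).2 ⟨?_, by omega⟩, (h.infC hc1 hc2 _ k').2 ⟨?_, by omega⟩,
      ?_, ⟨by omega, by omega⟩⟩
    · rw [ex]
      omega
    · rw [ex]
      omega
    · rintro rfl
      omega

theorem Rk.l2 (h : Rk X p q n) {d : Z X n} (hd1 : c1 X p n d = 0) (hd2 : c2 X q n d = 2 * n)
    (x y : X) : lt1 (Le X p q n) d (Sum.inr x) (Sum.inr y) ↔ q x < q y := by
  have ex : ∀ x : X, c2 X q n (Sum.inr x) = 2 * q x + 1 := fun x => rfl
  constructor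
  · rintro ⟨k, k', h1, h2, h3, h4, h5⟩
    obtain ⟨a1, a2⟩ := (h.infD hd1 hd2 _ k).1 h1
    obtain ⟨b1, b2⟩ := (h.infD hd1 hd2 _ k').1 h2
    rw [ex] at a2 b2
    by_contra hge
    exact h3 (eq_of h (by omega) (by omega))
  · intro hlt
    have := h.qn x
    have := h.qn y
    obtain ⟨k, a1, a2⟩ := grd (X := X) (p := p) (q := q) (n := n) 0 (q x) (by omega) (by omega)
    obtain ⟨k', b1, b2⟩ := grd (X := X) (p := p) (q := q) (n := n) 0 (q y) (by omega) (by omega)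
    refine ⟨k, k', (h.infD hd1 hd2 _ k).2 ⟨by omega, ?_⟩, (h.infD hd1 hd2 _ k').2 ⟨by omega, ?_⟩,
      ?_, ⟨by omega, by omega⟩⟩
    · rw [ex]
      omega
    · rw [ex]
      omega
    · rintro rfl
      omega

end

/-- ranks from zero -/
theorem exists_rank0 {X : Type} [Finite X] (a : X → X → Prop) (h : IsStrictTotalOrder X a) :
    ∃ f : X → ℕ, Function.Injective f ∧ (∀ x, f x < Nat.card X) ∧
      (∀ k < Nat.card X, ∃ x, f x = k) ∧ ∀ x y, a x y ↔ f x < f y := by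
  have key : ∀ x y, a x y → {z | a z x}.ncard < {z | a z y}.ncard := by
    intro x y hxy
    have : {z | a z x} ⊂ {z | a z y} := by
      refine ⟨fun z hz => h.trans _ _ _ hz hxy, fun hs => ?_⟩
      exact h.irrefl x (hs hxy)
    exact Set.ncard_lt_ncard this (Set.toFinite _)
  have h1 : ∀ x y, a x y ↔ {z | a z x}.ncard < {z | a z y}.ncard := by
    intro x y
    refine ⟨key x y, fun hlt => ?_⟩
    by_contra h1
    by_cases h2 : a y x
    · have := key y x h2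
      omega
    · have := h.trichotomous x y h1 h2
      subst this
      exact lt_irrefl _ hlt
  have h2 : Function.Injective (fun x => {z | a z x}.ncard) := by
    intro x y hxy
    have hxy' : {z | a z x}.ncard = {z | a z y}.ncard := hxy
    exact h.trichotomous x y (fun h' => by have := key _ _ h'; omega)
      (fun h' => by have := key _ _ h'; omega)
  have h3 : ∀ x, {z | a z x}.ncard < Nat.card X := by
    intro x
    rw [← Set.ncard_univ]
    refine Set.ncard_lt_ncard ⟨fun _ _ => trivial, fun hs => ?_⟩ (Set.toFinite _)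
    exact h.irrefl x (hs (Set.mem_univ x))
  refine ⟨fun x => {z | a z x}.ncard, h2, h3, fun k hk => ?_, h1⟩
  let g : X → Fin (Nat.card X) := fun x => ⟨{z | a z x}.ncard, h3 x⟩
  have hg : Function.Injective g := fun x y hxy => h2 (congrArg Fin.val hxy)
  have hs : Function.Surjective g :=
    (Function.Injective.bijective_of_nat_card_le hg (by rw [Nat.card_fin])).2
  obtain ⟨x, hx⟩ := hs ⟨k, hk⟩
  exact ⟨x, congrArg Fin.val hx⟩

/-- **Coding.** -/
theorem encL (X : Type) [Finite X] (T0 : LP.Structure X) (h : Dim2 (rl X T0)) :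
    ∃ (M : Type) (T : LP.Structure M) (c d : M) (e : X → M),
      Nat.card M = (Nat.card X + 1) * (Nat.card X + 1) + Nat.card X ∧
      PML M (rl M T) ∧ Function.Injective e ∧
      (∀ x, ¬ Gd (rl M T) c d x ↔ ∃ y, e y = x) ∧
      (∀ x y, rl X T0 x y ↔ (lt1 (rl M T) c (e x) (e y) ∧ lt1 (rl M T) d (e x) (e y))) ∧
      Pl (rl M T) c d := by
  obtain ⟨a, b, ha, hb, hab⟩ := h
  obtain ⟨p, p1, p2, p3, p4⟩ := exists_rank0 a ha
  obtain ⟨q, q1, q2, q3, q4⟩ := exists_rank0 b hb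
  have h : Rk X p q (Nat.card X) := ⟨p1, q1, p2, q2, p3, q3⟩
  obtain ⟨c, hc1, hc2⟩ := grd (X := X) (p := p) (q := q) (n := Nat.card X) (Nat.card X) 0
    le_rfl (Nat.zero_le _)
  obtain ⟨d, hd1, hd2⟩ := grd (X := X) (p := p) (q := q) (n := Nat.card X) 0 (Nat.card X)
    (Nat.zero_le _) le_rfl
  have hc2' : c2 X q (Nat.card X) c = 0 := hc2
  have hd1' : c1 X p (Nat.card X) d = 0 := hd1
  refine ⟨Z X (Nat.card X), ofl (Le X p q (Nat.card X)), c, d, Sum.inr, ?_, ?_,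
    Sum.inr_injective, ?_, ?_, ?_⟩
  · rw [Nat.card_sum, Nat.card_prod, Nat.card_fin]
  · rw [rl_ofl]
    exact ⟨h.ml, h.dim⟩
  · intro x
    rw [rl_ofl, h.gd hc1 hc2' hd1' hd2 x]
    rcases x with ⟨i, j⟩ | x
    · refine ⟨fun h' => ?_, fun ⟨y, hy⟩ => by simp at hy⟩
      exfalso
      apply h'
      simp only [c1, Sum.elim_inl]
      omega
    · refine ⟨fun _ => ⟨x, rfl⟩, fun _ => ?_⟩
      simp only [c1, Sum.elim_inr]
      omega
  · intro x y
    rw [rl_ofl, h.l1 hc1 hc2', h.l2 hd1' hd2, hab, p4, q4]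
  · rw [rl_ofl]
    exact h.pl hc1 hc2' hd1' hd2

theorem sq_inj {m n : ℕ} (h : (m + 1) * (m + 1) + m = (n + 1) * (n + 1) + n) : m = n := by
  rcases lt_trichotomy m n with h1 | h1 | h1
  · have := Nat.mul_le_mul (show m + 1 ≤ n + 1 by omega) (show m + 1 ≤ n + 1 by omega)
    omega
  · exact h1
  · have := Nat.mul_le_mul (show n + 1 ≤ m + 1 by omega) (show n + 1 ≤ m + 1 by omega)
    omega

/-- the coding theorem for classes which contain the modular lattices of dimension two -/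
theorem code_L (φ : LP.Sentence) : ∃ χ : LP.Sentence,
    ∀ C : ∀ M : Type, (M → M → Prop) → Prop,
      (∀ (M : Type) (r : M → M → Prop), Finite M → ModLat r → Dim2Le r → C M r) →
      ∀ n : ℕ, 0 < n → (n ∈ spec2 φ ↔ (n + 1) * (n + 1) + n ∈ specC C χ) := by
  obtain ⟨χ, h1, h2⟩ := decL φ
  refine ⟨χ, fun C hC n hn => ⟨?_, ?_⟩⟩
  · rintro ⟨-, X, T0, hc, hd, hr⟩
    have : Finite X := Nat.finite_of_card_ne_zero (by omega)
    obtain ⟨M, T, c, d, e, hcM, hI, he, e1, e2, e3⟩ := encL X T0 hd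
    have hfM : Finite M := Nat.finite_of_card_ne_zero (by omega)
    exact ⟨by omega, M, T, by rw [hcM, hc], hC M _ hfM hI.1 hI.2, h2 M T c d X T0 e he e1 e2 e3 hr⟩
  · rintro ⟨-, M, T, hc, -, hr⟩
    have hfM : Finite M := Nat.finite_of_card_ne_zero (by omega)
    obtain ⟨X, T0, hcX, hd, hφ⟩ := h1 M T hfM hr
    exact ⟨hn, X, T0, sq_inj (hcX.symm.trans hc), hd, hφ⟩

/-- the sorts for `(n + 1) ^ 2 + n` -/
def arQ : Unit ⊕ Fin 3 ⊕ Unit → ℕ := Sum.elim (fun _ => 0) (Sum.elim (fun _ => 1) (fun _ => 2))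

theorem card_YQ (n : ℕ) : Nat.card (Y arQ (Fin n)) = (n + 1) * (n + 1) + n := by
  rw [Nat.card_sigma, Fintype.sum_sum_type, Fintype.sum_sum_type]
  simp only [arQ, Sum.elim_inl, Sum.elim_inr, Nat.card_fun, Nat.card_fin, pow_zero, pow_one,
    Finset.sum_const, Finset.card_univ, Fintype.card_fin, smul_eq_mul, Fintype.card_unit]
  ring

theorem lat_of_class (C : ∀ M : Type, (M → M → Prop) → Prop)
    (hC : ∀ (M : Type) (r : M → M → Prop), Finite M → ModLat r → Dim2Le r → C M r)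
    (h : ∀ φ : LP.Sentence, Co (specC C φ)) :
    ∀ (L : FirstOrder.Language.{0, 0}) (φ : L.Sentence), Co (spec φ) := by
  refine asser_main.2 fun φ => ?_
  obtain ⟨ψ, hψ⟩ := code_L φ
  obtain ⟨L1, χ1, h1⟩ := h ψ
  obtain ⟨L2, χ2, h2⟩ := invY χ1 arQ (Sum.inl ()) rfl
  refine ⟨L2, χ2, fun n => ?_⟩
  constructor
  · rintro ⟨hn, h3⟩
    refine ⟨hn, fun h4 => ?_⟩
    have h5 := (h2 n hn).1 h3
    rw [card_YQ] at h5
    exact ((h1 ((n + 1) * (n + 1) + n)).1 ⟨by omega, h5⟩).2 ((hψ C hC n hn).1 h4)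
  · rintro ⟨hn, h3⟩
    refine ⟨hn, (h2 n hn).2 ?_⟩
    rw [card_YQ]
    refine ((h1 ((n + 1) * (n + 1) + n)).2 ⟨by omega, fun h4 => ?_⟩).2
    exact h3 ((hψ C hC n hn).2 h4)

theorem lat_main : (∀ (L : FirstOrder.Language.{0, 0}) (φ : L.Sentence), Co (spec φ)) ↔
    ∀ φ : LP.Sentence, Co (specC PML φ) := by
  refine ⟨fun h φ => ?_, lat_of_class PML fun M r _ h1 h2 => ⟨h1, h2⟩⟩
  obtain ⟨χ, hχ⟩ := pml_spec φ
  rw [hχ]
  exact h LQ χ

end Pool.Agent.TH565.OM
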