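import Pool.Agent.TH565.OM.Gen

set_option autoImplicit false

/-! Two linear orders coded in a linear order with a perfect matching. -/

namespace Pool.Agent.TH565.OM

open FirstOrder FirstOrder.Language Pool.Agent.TH686.SP Pool.Agent.TH195.SG

/-- Ordered matchings (chord diagrams): a strict linear order and a perfect matching. -/
structure OrdMatch {M : Type} (o e : M → M → Prop) : Prop where
  order : IsStrictTotalOrder M o
  symm : ∀ x y, e x y → e y x
  irrefl : ∀ x, ¬ e x x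
  partner : ∀ x, ∃! y, e x y

section fd

variable {α : Type}

theorem fd_eu' {L : FirstOrder.Language.{0, 0}}
    {P : ∀ M : Type, L.Structure M → (α → M) → M → Prop}
    (h : FD (fun M S (w : α ⊕ Unit → M) => P M S (fun i => w (Sum.inl i)) (w (Sum.inr ())))) :
    FD (fun M S v => ∃! a : M, P M S v a) := by
  have h2 : FD (fun M S v => ∃ a : M, P M S v a ∧ ∀ b : M, P M S v b → b = a) :=
    FD.ex1 (P := fun M S v a => P M S v a ∧ ∀ b : M, P M S v b → b = a)
      (h.and (FD.all1 (P := fun M S w b => P M S (fun i => w (Sum.inl i)) b → b = w (Sum.inr ()))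
        ((h.sub (β := (α ⊕ Unit) ⊕ Unit)
          (Sum.elim (fun i => Sum.inl (Sum.inl i)) (fun _ => Sum.inr ()))).imp
          (FD.eq (Sum.inr ()) (Sum.inl (Sum.inr ()))))))
  exact h2

theorem fd_om : FD (fun M S (_ : α → M) => OrdMatch (ra M S) (rb M S)) := by
  have h1 : FD (fun M S (_ : α → M) => IsStrictTotalOrder M (ra M S)) := fd_sto fd_ra
  have h2 : FD (fun M S (_ : α → M) => ∀ x y, rb M S x y → rb M S y x) :=
    FD.all1 (P := fun M S v x => ∀ y, rb M S x y → rb M S y x) <|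
    FD.all1 (P := fun M S v y => rb M S (v (Sum.inr ())) y → rb M S y (v (Sum.inr ()))) <|
    (fd_rb (Sum.inl (Sum.inr ())) (Sum.inr ())).imp (fd_rb (Sum.inr ()) (Sum.inl (Sum.inr ())))
  have h3 : FD (fun M S (_ : α → M) => ∀ x, ¬ rb M S x x) :=
    FD.all1 (P := fun M S v x => ¬ rb M S x x) (fd_rb (Sum.inr ()) (Sum.inr ())).not
  have h4 : FD (fun M S (_ : α → M) => ∀ x, ∃! y, rb M S x y) :=
    FD.all1 (P := fun M S v x => ∃! y, rb M S x y) <|
    fd_eu' (P := fun M S v y => rb M S (v (Sum.inr ())) y)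
      (fd_rb (Sum.inl (Sum.inr ())) (Sum.inr ()))
  refine (h1.and (h2.and (h3.and h4))).congr fun M S v => ?_
  exact ⟨fun h => ⟨h.1, h.2.1, h.2.2.1, h.2.2.2⟩, fun h => ⟨h.order, h.symm, h.irrefl, h.partner⟩⟩

/-- the chord `u v` separates the two ends of every other chord -/
structure Fit {M : Type} (o e : M → M → Prop) (u v : M) : Prop where
  om : OrdMatch o e
  lt : o u v
  cov : ∀ x, x = u ∨ x = v ∨ o x u ∨ o v x
  ab : ∀ x, o x u → ∃ y, e x y ∧ o v y
  ba : ∀ y, o v y → ∃ x, e y x ∧ o x u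

theorem fd_Fit (u v : α) : FD (fun M S w => Fit (ra M S) (rb M S) (w u) (w v)) := by
  have h2 : FD (fun M S (w : α → M) => ∀ x, x = w u ∨ x = w v ∨ ra M S x (w u) ∨
      ra M S (w v) x) :=
    FD.all1 (P := fun M S w x => x = w u ∨ x = w v ∨ ra M S x (w u) ∨ ra M S (w v) x) <|
    (FD.eq (Sum.inr ()) (Sum.inl u)).or ((FD.eq (Sum.inr ()) (Sum.inl v)).or
      ((fd_ra (Sum.inr ()) (Sum.inl u)).or (fd_ra (Sum.inl v) (Sum.inr ()))))
  have h3 : FD (fun M S (w : α → M) => ∀ x, ra M S x (w u) → ∃ y, rb M S x y ∧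
      ra M S (w v) y) :=
    FD.all1 (P := fun M S w x => ra M S x (w u) → ∃ y, rb M S x y ∧ ra M S (w v) y) <|
    (fd_ra (Sum.inr ()) (Sum.inl u)).imp <|
    FD.ex1 (P := fun M S w y => rb M S (w (Sum.inr ())) y ∧ ra M S (w (Sum.inl v)) y) <|
    (fd_rb (Sum.inl (Sum.inr ())) (Sum.inr ())).and (fd_ra (Sum.inl (Sum.inl v)) (Sum.inr ()))
  have h4 : FD (fun M S (w : α → M) => ∀ y, ra M S (w v) y → ∃ x, rb M S y x ∧
      ra M S x (w u)) :=
    FD.all1 (P := fun M S w y => ra M S (w v) y → ∃ x, rb M S y x ∧ ra M S x (w u)) <|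
    (fd_ra (Sum.inl v) (Sum.inr ())).imp <|
    FD.ex1 (P := fun M S w x => rb M S (w (Sum.inr ())) x ∧ ra M S x (w (Sum.inl u))) <|
    (fd_rb (Sum.inl (Sum.inr ())) (Sum.inr ())).and (fd_ra (Sum.inr ()) (Sum.inl (Sum.inl u)))
  refine (fd_om.and ((fd_ra u v).and (h2.and (h3.and h4)))).congr fun M S v => ?_
  exact ⟨fun h => ⟨h.1, h.2.1, h.2.2.1, h.2.2.2.1, h.2.2.2.2⟩,
    fun h => ⟨h.om, h.lt, h.cov, h.ab, h.ba⟩⟩

/-- the order of the partners -/
def po {M : Type} (o e : M → M → Prop) (x y : M) : Prop := ∃ x' y', e x x' ∧ e y y' ∧ o x' y'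

theorem fd_po (x y : α) : FD (fun M S v => po (ra M S) (rb M S) (v x) (v y)) :=
  FD.ex1 (P := fun M S v x' => ∃ y', rb M S (v x) x' ∧ rb M S (v y) y' ∧ ra M S x' y') <|
  FD.ex1 (P := fun M S v y' => rb M S (v (Sum.inl x)) (v (Sum.inr ())) ∧
    rb M S (v (Sum.inl y)) y' ∧ ra M S (v (Sum.inr ())) y') <|
  (fd_rb (Sum.inl (Sum.inl x)) (Sum.inl (Sum.inr ()))).and
    ((fd_rb (Sum.inl (Sum.inl y)) (Sum.inr ())).and (fd_ra (Sum.inl (Sum.inr ())) (Sum.inr ())))

end fd

/-- the interpreted relation -/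
def rgp {M : Type} (T : LQ.Structure M) : {m : ℕ} → LP.Relations m → (Fin m → M) → Prop
  | _, RP.lt, u => ra M T (u 0) (u 1) ∧ po (ra M T) (rb M T) (u 0) (u 1)

/-- the interpretation; the parameter is the first end of the separating chord -/
def IO : Itp LP LQ Unit 1 Unit where
  dom _ M T p w := ra M T (w 0) (p ())
  eqv _ _ _ _ _ w w' := w 0 = w' 0
  rel R _ _ T _ ws := rgp T R (fun i => ws i 0)
  fn f _ _ _ _ _ _ _ := nomatch f
  fd_dom _ _ p w := fd_ra (w 0) (p ())
  fd_eqv _ _ _ _ w w' := FD.eq (w 0) (w' 0)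
  fd_rel {m} R _ {α} p ws := by
    cases R
    exact (fd_ra (ws 0 0) (ws 1 0)).and (fd_po (ws 0 0) (ws 1 0))
  fd_fn f _ _ _ _ _ _ := nomatch f

theorem rep_IO (M : Type) (T : LQ.Structure M) (p : M) (X : Type) (T0 : LP.Structure X)
    (e : X → M) (he : Function.Injective e)
    (hI : ∀ x, ra M T x p ↔ ∃ y, e y = x)
    (hr : ∀ x y, rl X T0 x y ↔ (ra M T (e x) (e y) ∧ po (ra M T) (rb M T) (e x) (e y))) :
    Rep IO X T0 M T (fun _ => p) (fun _ w x => w 0 = e x) := by
  refine ⟨fun x => ⟨(), fun _ => e x, rfl⟩, fun c w => ?_, ?_, ?_, ?_⟩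
  · show ra M T (w 0) p ↔ _
    rw [hI]
    exact ⟨fun ⟨y, hy⟩ => ⟨y, hy.symm⟩, fun ⟨y, hy⟩ => ⟨y, hy.symm⟩⟩
  · intro c c' w w' x x' h1 h2
    show w 0 = w' 0 ↔ _
    rw [h1, h2]
    exact he.eq_iff
  · intro m R cs ws xs h1
    have e1 : (fun i => ws i 0) = fun i => e (xs i) := funext h1
    show rgp T R (fun i => ws i 0) ↔ _
    rw [e1]
    cases R
    have := hr (xs 0) (xs 1)
    refine (this.symm).trans ?_
    have e2 : ![xs 0, xs 1] = xs := by
      funext t
      fin_cases t <;> rfl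
    show @Structure.RelMap LP X T0 2 RP.lt ![xs 0, xs 1] ↔ _
    rw [e2]
  · intro m f
    exact nomatch f

theorem sto_pull {M X : Type} {o : M → M → Prop} (h : IsStrictTotalOrder M o) {f : X → M}
    (hf : Function.Injective f) : IsStrictTotalOrder X (fun x y => o (f x) (f y)) :=
  { trichotomous := fun _ _ h1 h2 => hf (h.trichotomous _ _ h1 h2)
    irrefl := fun x => h.irrefl (f x)
    trans := fun _ _ _ h1 h2 => h.trans _ _ _ h1 h2 }

section dec

variable {M : Type} {o e : M → M → Prop} {u v : M}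

theorem Fit.partner (h : Fit o e u v) : ∃ s : M → M, (∀ x, s (s x) = x) ∧
    (∀ x y, e x y ↔ y = s x) ∧ (∀ x, o x u ↔ o v (s x)) := by
  choose s hs1 hs2 using h.om.partner
  have h0 : ∀ x y, e x y ↔ y = s x := fun x y => ⟨hs2 x y, fun h1 => h1 ▸ hs1 x⟩
  have h1 : ∀ x, s (s x) = x := fun x => ((h0 (s x) x).1 (h.om.symm _ _ (hs1 x))).symm
  refine ⟨s, h1, h0, fun x => ⟨fun h2 => ?_, fun h2 => ?_⟩⟩
  · obtain ⟨y, h3, h4⟩ := h.ab x h2
    rw [← (h0 x y).1 h3]
    exact h4
  · obtain ⟨y, h3, h4⟩ := h.ba _ h2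
    rw [(h0 _ y).1 h3, h1] at h4
    exact h4

theorem Fit.card [Finite M] (h : Fit o e u v) :
    Nat.card M = 2 * Nat.card {x // o x u} + 2 := by
  obtain ⟨s, hs1, hs2, hs3⟩ := h.partner
  have ho := h.om.order
  have hlt := h.lt
  have e1 : Nat.card M = Nat.card (Bool ⊕ {x // o x u} ⊕ {x // o x u}) := by
    symm
    refine Nat.card_eq_of_bijective (Sum.elim (fun b => if b then v else u)
      (Sum.elim Subtype.val (fun x => s x.1))) ⟨?_, ?_⟩
    · have n1 : u ≠ v := fun h' => ho.irrefl v (by rw [h'] at hlt; exact hlt)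
      have n2 : ∀ x : {x // o x u}, x.1 ≠ u := fun x h' => ho.irrefl u (by
        have := x.2; rw [h'] at this; exact this)
      have n3 : ∀ x : {x // o x u}, x.1 ≠ v := fun x h' => ho.irrefl u (ho.trans _ _ _ hlt (by
        have := x.2; rw [h'] at this; exact this))
      have n4 : ∀ x : {x // o x u}, s x.1 ≠ v := fun x h' => ho.irrefl v (by
        have := (hs3 x.1).1 x.2; rw [h'] at this; exact this)
      have n5 : ∀ x : {x // o x u}, s x.1 ≠ u := fun x h' => ho.irrefl u (ho.trans _ _ _ hlt (by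
        have := (hs3 x.1).1 x.2; rw [h'] at this; exact this))
      have n6 : ∀ x y : {x // o x u}, s x.1 ≠ y.1 := fun x y h' => by
        have h2 := (hs3 x.1).1 x.2
        rw [h'] at h2
        exact ho.irrefl u (ho.trans _ _ _ hlt (ho.trans _ _ _ h2 y.2))
      rintro (b | x | x) (c | y | y) hxy <;> simp only [Sum.elim_inl, Sum.elim_inr] at hxy
      · rcases b with _ | _ <;> rcases c with _ | _
        · rfl
        · exact absurd hxy n1
        · exact absurd hxy.symm n1
        · rfl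
      · rcases b with _ | _
        · exact absurd hxy.symm (n2 y)
        · exact absurd hxy.symm (n3 y)
      · rcases b with _ | _
        · exact absurd hxy.symm (n5 y)
        · exact absurd hxy.symm (n4 y)
      · rcases c with _ | _
        · exact absurd hxy (n2 x)
        · exact absurd hxy (n3 x)
      · rw [Subtype.ext hxy]
      · exact absurd hxy.symm (n6 y x)
      · rcases c with _ | _
        · exact absurd hxy (n5 x)
        · exact absurd hxy (n4 x)
      · exact absurd hxy (n6 x y)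
      · have : x.1 = y.1 := by rw [← hs1 x.1, ← hs1 y.1, hxy]
        rw [Subtype.ext this]
    · intro x
      rcases h.cov x with rfl | rfl | h1 | h1
      · exact ⟨Sum.inl false, rfl⟩
      · exact ⟨Sum.inl true, rfl⟩
      · exact ⟨Sum.inr (Sum.inl ⟨x, h1⟩), rfl⟩
      · refine ⟨Sum.inr (Sum.inr ⟨s x, (hs3 _).2 ?_⟩), hs1 x⟩
        rw [hs1]
        exact h1
  rw [e1, Nat.card_sum, Nat.card_sum, Nat.card_eq_fintype_card (α := Bool), Fintype.card_bool]
  ring

theorem Fit.dim2 (h : Fit o e u v) :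
    Dim2 (fun x y : {x // o x u} => o x.1 y.1 ∧ po o e x.1 y.1) := by
  obtain ⟨s, hs1, hs2, hs3⟩ := h.partner
  have ho := h.om.order
  have hp : ∀ x y, po o e x y ↔ o (s x) (s y) := by
    intro x y
    constructor
    · rintro ⟨x', y', h1, h2, h3⟩
      rw [(hs2 _ _).1 h1, (hs2 _ _).1 h2] at h3
      exact h3
    · intro h1
      exact ⟨_, _, (hs2 _ _).2 rfl, (hs2 _ _).2 rfl, h1⟩
  refine ⟨fun x y => o x.1 y.1, fun x y => o (s x.1) (s y.1),
    sto_pull ho Subtype.val_injective, sto_pull ho (f := fun x : {x // o x u} => s x.1) ?_,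
    fun x y => ?_⟩
  · intro x y hxy
    have : s x.1 = s y.1 := hxy
    exact Subtype.ext (by rw [← hs1 x.1, ← hs1 y.1, this])
  · exact and_congr_right fun _ => hp _ _

end dec

section enc

variable (X : Type) (p q : X → ℕ) (N : ℕ)

/-- the points -/
abbrev W : Type := X ⊕ Bool ⊕ X

/-- the positions -/
def ps : W X → ℕ := Sum.elim p (Sum.elim (fun b => if b then N + 2 else N + 1)
  (fun x => N + 2 + q x))

/-- the partners -/
def pt : W X → W X
  | Sum.inl x => Sum.inr (Sum.inr x)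
  | Sum.inr (Sum.inl b) => Sum.inr (Sum.inl !b)
  | Sum.inr (Sum.inr x) => Sum.inl x

variable {X p q N}

theorem pt_pt (w : W X) : pt X (pt X w) = w := by
  rcases w with x | b | x
  · rfl
  · simp [pt]
  · rfl

theorem pt_ne (w : W X) : w ≠ pt X w := by
  rcases w with x | b | x
  · simp [pt]
  · rcases b with _ | _ <;> simp [pt]
  · simp [pt]

theorem ps_inj (hp : Function.Injective p) (hq : Function.Injective q) (hN : ∀ x, p x ≤ N)
    (hq1 : ∀ x, 1 ≤ q x) : Function.Injective (ps X p q N) := by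
  rintro (x | b | x) (y | c | y) h <;> simp only [ps, Sum.elim_inl, Sum.elim_inr] at h
  · rw [hp h]
  · have := hN x
    rcases c with _ | _ <;> simp at h <;> omega
  · have := hN x
    omega
  · have := hN y
    rcases b with _ | _ <;> simp at h <;> omega
  · rcases b with _ | _ <;> rcases c with _ | _ <;> simp at h <;> rfl
  · have := hq1 y
    rcases b with _ | _ <;> simp at h <;> omega
  · have := hN y
    omega
  · have := hq1 x
    rcases c with _ | _ <;> simp at h <;> omega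
  · rw [hq (by omega : q x = q y)]

theorem nat_sto : IsStrictTotalOrder ℕ (fun x y => x < y) :=
  { trichotomous := fun _ _ h1 h2 => by omega
    irrefl := fun x => lt_irrefl x
    trans := fun _ _ _ h1 h2 => h1.trans h2 }

theorem enc_Fit (hp : Function.Injective p) (hq : Function.Injective q) (hN : ∀ x, p x ≤ N)
    (hq1 : ∀ x, 1 ≤ q x) :
    Fit (fun x y => ps X p q N x < ps X p q N y) (fun x y => y = pt X x)
      (Sum.inr (Sum.inl false)) (Sum.inr (Sum.inl true)) := by
  refine ⟨⟨sto_pull nat_sto (ps_inj hp hq hN hq1), ?_, ?_, ?_⟩, ?_, ?_, ?_, ?_⟩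
  · rintro x y rfl
    exact (pt_pt x).symm
  · intro x
    exact pt_ne x
  · intro x
    exact ⟨pt X x, rfl, fun y hy => hy⟩
  · simp [ps]
  · rintro (x | b | x)
    · have := hN x
      refine Or.inr (Or.inr (Or.inl ?_))
      simp only [ps, Sum.elim_inl, Sum.elim_inr, Bool.false_eq_true, if_false]
      omega
    · rcases b with _ | _
      · exact Or.inl rfl
      · exact Or.inr (Or.inl rfl)
    · have := hq1 x
      refine Or.inr (Or.inr (Or.inr ?_))
      simp only [ps, Sum.elim_inl, Sum.elim_inr, if_true]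
      omega
  · rintro (x | b | x) h
    · refine ⟨_, rfl, ?_⟩
      have := hq1 x
      simp only [ps, pt, Sum.elim_inl, Sum.elim_inr, if_true]
      omega
    · exfalso
      rcases b with _ | _ <;> simp [ps] at h
    · exfalso
      simp only [ps, Sum.elim_inl, Sum.elim_inr, Bool.false_eq_true, if_false] at h
      omega
  · rintro (x | b | x) h
    · exfalso
      have := hN x
      simp only [ps, Sum.elim_inl, Sum.elim_inr, if_true] at h
      omega
    · exfalso
      rcases b with _ | _ <;> simp [ps] at h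
    · refine ⟨_, rfl, ?_⟩
      have := hN x
      simp only [ps, pt, Sum.elim_inl, Sum.elim_inr, Bool.false_eq_true, if_false]
      omega

theorem enc_dom (hN : ∀ x, p x ≤ N) (w : W X) :
    ps X p q N w < ps X p q N (Sum.inr (Sum.inl false)) ↔ ∃ y : X, Sum.inl y = w := by
  rcases w with x | b | x
  · refine ⟨fun _ => ⟨x, rfl⟩, fun _ => ?_⟩
    have := hN x
    simp only [ps, Sum.elim_inl, Sum.elim_inr, Bool.false_eq_true, if_false]
    omega
  · refine ⟨fun h => ?_, fun ⟨y, hy⟩ => by simp at hy⟩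
    rcases b with _ | _ <;> simp [ps] at h
  · refine ⟨fun h => ?_, fun ⟨y, hy⟩ => by simp at hy⟩
    simp only [ps, Sum.elim_inl, Sum.elim_inr, Bool.false_eq_true, if_false] at h
    omega

theorem enc_rel (x y : X) :
    (p x < p y ∧ q x < q y) ↔ (ps X p q N (Sum.inl x) < ps X p q N (Sum.inl y) ∧
      po (fun x y => ps X p q N x < ps X p q N y) (fun x y => y = pt X x)
        (Sum.inl x) (Sum.inl y)) := by
  have h1 : po (fun x y => ps X p q N x < ps X p q N y) (fun x y => y = pt X x)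
        (Sum.inl x) (Sum.inl y) ↔ q x < q y := by
    constructor
    · rintro ⟨x', y', rfl, rfl, h⟩
      simp only [ps, pt, Sum.elim_inr] at h
      omega
    · intro h
      refine ⟨_, _, rfl, rfl, ?_⟩
      simp only [ps, pt, Sum.elim_inr]
      omega
  rw [h1]
  exact Iff.rfl

end enc

/-- **Coding.** -/
theorem code_om (φ : LP.Sentence) : ∃ χ : LQ.Sentence,
    ∀ C : ∀ M : Type, LQ.Structure M → Prop,
      (∀ (M : Type) (S : LQ.Structure M), Finite M → OrdMatch (ra M S) (rb M S) → C M S) →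
      ∀ n : ℕ, 0 < n → (n ∈ spec2 φ ↔ 2 * n + (1 + 1) ∈ specIn C χ) := by
  obtain ⟨Q, hQ1, hQ2⟩ := sent_tr IO φ
  obtain ⟨χ, hχ⟩ := FD.sent (L := LQ) (P := fun M S => ∃ u v : M,
      Fit (ra M S) (rb M S) u v ∧ Q M S (fun _ => u))
    (FD.ex1 (P := fun M S _ u => ∃ v, Fit (ra M S) (rb M S) u v ∧ Q M S (fun _ => u))
      (FD.ex1 (P := fun M S w v => Fit (ra M S) (rb M S) (w (Sum.inr ())) v ∧
        Q M S (fun _ => w (Sum.inr ())))
        ((fd_Fit (Sum.inl (Sum.inr ())) (Sum.inr ())).and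
        (hQ1 (α := (Empty ⊕ Unit) ⊕ Unit) (fun _ => Sum.inl (Sum.inr ()))))))
  refine ⟨χ, fun C hC n hn => ⟨?_, ?_⟩⟩
  · rintro ⟨-, X, T0, hc, ⟨a, b, ha, hb, hab⟩, hr⟩
    have : Finite X := Nat.finite_of_card_ne_zero (by omega)
    obtain ⟨p, hp, hpa⟩ := exists_rank a ha
    obtain ⟨q, hq, hqb⟩ := exists_rank b hb
    have inj : ∀ (c : X → X → Prop) (f : X → ℕ), IsStrictTotalOrder X c →
        (∀ x y, c x y ↔ f x < f y) → Function.Injective f := by
      intro c f hc hf x y hxy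
      exact hc.trichotomous x y (fun h => by have := (hf _ _).1 h; omega)
        (fun h => by have := (hf _ _).1 h; omega)
    obtain ⟨N, hN⟩ := (Set.finite_range p).bddAbove
    have hN' : ∀ x, p x ≤ N := fun x => hN ⟨x, rfl⟩
    have hF := enc_Fit (inj a p ha hpa) (inj b q hb hqb) hN' hq
    refine ⟨by omega, W X, of2 (fun x y => ps X p q N x < ps X p q N y) (fun x y => y = pt X x),
      ?_, hC _ _ inferInstance hF.om,
      (hχ _ _).2 ⟨Sum.inr (Sum.inl false), Sum.inr (Sum.inl true), hF, ?_⟩⟩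
    · rw [Nat.card_sum, Nat.card_sum, Nat.card_eq_fintype_card (α := Bool), Fintype.card_bool, hc]
      ring
    · refine (hQ2 X T0 _ _ _ _ (rep_IO _ (of2 (fun x y => ps X p q N x < ps X p q N y)
        (fun x y => y = pt X x)) (Sum.inr (Sum.inl false)) X T0 Sum.inl
        Sum.inl_injective (fun w => enc_dom hN' w) (fun x y => ?_))).2 hr
      rw [hab, hpa, hqb]
      exact enc_rel x y
  · rintro ⟨-, M, T, hc, -, hr⟩
    have hfM : Finite M := Nat.finite_of_card_ne_zero (by omega)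
    obtain ⟨u, v, hF, hq⟩ := (hχ M T).1 hr
    have hcard := hF.card
    refine ⟨hn, {x // ra M T x u}, ofl fun x y => ra M T x.1 y.1 ∧
      po (ra M T) (rb M T) x.1 y.1, by omega, ?_, ?_⟩
    · rw [rl_ofl]
      exact hF.dim2
    · exact (hQ2 _ _ M T _ _ (rep_IO M T u _ _ Subtype.val Subtype.val_injective
        (fun x => ⟨fun hx => ⟨⟨x, hx⟩, rfl⟩, fun ⟨y, hy⟩ => hy ▸ y.2⟩)
        (fun x y => Iff.rfl))).1 hq

theorem om_of_class (C : ∀ M : Type, LQ.Structure M → Prop)
    (hC : ∀ (M : Type) (S : LQ.Structure M), Finite M → OrdMatch (ra M S) (rb M S) → C M S)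
    (h : ∀ φ : LQ.Sentence, Co (specIn C φ)) :
    ∀ (L : FirstOrder.Language.{0, 0}) (φ : L.Sentence), Co (spec φ) := by
  refine asser_main.2 fun φ => ?_
  obtain ⟨χ, hχ⟩ := code_om φ
  exact co_red 1 2 (hχ C hC) (h χ)

theorem om_main : (∀ (L : FirstOrder.Language.{0, 0}) (φ : L.Sentence), Co (spec φ)) ↔
    ∀ φ : LQ.Sentence, Co (specIn (fun M S => OrdMatch (ra M S) (rb M S)) φ) := by
  refine ⟨fun h φ => ?_, om_of_class _ fun M S _ h => h⟩
  obtain ⟨χ, hχ⟩ := specIn_el (fun M S => OrdMatch (ra M S) (rb M S)) fd_om φ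
  rw [hχ]
  exact h LQ χ

end Pool.Agent.TH565.OM
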