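import Pool.Agent.TH565.OM.Gen

set_option autoImplicit false

/-! Graphs coded in commutative semigroups with constant triple products. -/

namespace Pool.Agent.TH565.OM

open FirstOrder FirstOrder.Language Pool.Agent.TH686.SP Pool.Agent.TH195.SG

/-- one binary function symbol -/
inductive FM : ℕ → Type
  | mul : FM 2

/-- the language of one binary operation -/
def LM : FirstOrder.Language.{0, 0} := ⟨FM, fun _ => Empty⟩

/-- the binary operation of a structure -/
def mu (M : Type) (S : LM.Structure M) (x y : M) : M :=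
  @Structure.funMap LM M S 2 FM.mul ![x, y]

/-- the structure of an operation -/
@[instance_reducible] def ofm {M : Type} (m : M → M → M) : LM.Structure M where
  funMap := fun {_} f v => match f, v with
    | FM.mul, v => m (v 0) (v 1)
  RelMap := fun {_} R => nomatch R

theorem mu_ofm {M : Type} (m : M → M → M) : mu M (ofm m) = m := rfl

/-- Commutative semigroups in which all products of three elements and all squares are equal to
one element, and in which the products take at most one other value. -/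
structure NilSg {M : Type} (m : M → M → M) : Prop where
  comm : ∀ x y, m x y = m y x
  assoc : ∀ x y z, m (m x y) z = m x (m y z)
  nil : ∀ x y z w, m (m x y) z = m w w
  two : ∀ x y x' y' z, m x y = m z z ∨ m x' y' = m z z ∨ m x y = m x' y'

section

variable {α : Type}

theorem fd_mu (i j k : α) : FD (fun M S v => mu M S (v i) (v j) = v k) := by
  refine ⟨Term.equal (Term.func (L := LM) (l := 2) FM.mul ![Term.var i, Term.var j])
    (Term.var k), fun M S v => ?_⟩
  refine (Formula.realize_equal).trans ?_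
  have e : (fun t => Term.realize v ((![Term.var i, Term.var j] : Fin 2 → LM.Term α) t)) =
      ![v i, v j] := by
    funext t
    fin_cases t <;> rfl
  show @Structure.funMap LM M S 2 FM.mul (fun t => Term.realize v
    ((![Term.var i, Term.var j] : Fin 2 → LM.Term α) t)) = v k ↔ _
  rw [e]
  rfl

/-- two products are equal -/
theorem fd_mu2 (i j k l : α) : FD (fun M S v => mu M S (v i) (v j) = mu M S (v k) (v l)) := by
  refine (FD.ex1 (P := fun M S v a => mu M S (v i) (v j) = a ∧ mu M S (v k) (v l) = a)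
    ((fd_mu (Sum.inl i) (Sum.inl j) (Sum.inr ())).and
      (fd_mu (Sum.inl k) (Sum.inl l) (Sum.inr ())))).congr fun M S v => ?_
  exact ⟨fun ⟨a, h1, h2⟩ => h1.trans h2.symm, fun h => ⟨_, h, rfl⟩⟩

theorem fd_nil : FD (fun M S (_ : α → M) => NilSg (mu M S)) := by
  have h1 : FD (fun M S (_ : α → M) => ∀ x y, mu M S x y = mu M S y x) :=
    FD.all1 (P := fun M S v x => ∀ y, mu M S x y = mu M S y x) <|
    FD.all1 (P := fun M S v y => mu M S (v (Sum.inr ())) y = mu M S y (v (Sum.inr ()))) <|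
    fd_mu2 (Sum.inl (Sum.inr ())) (Sum.inr ()) (Sum.inr ()) (Sum.inl (Sum.inr ()))
  have h2 : FD (fun M S (_ : α → M) => ∀ b : Fin 5 → M,
      mu M S (b 0) (b 1) = b 3 → mu M S (b 1) (b 2) = b 4 →
      mu M S (b 3) (b 2) = mu M S (b 0) (b 4)) :=
    FD.all (P := fun M S v b => mu M S (b 0) (b 1) = b 3 → mu M S (b 1) (b 2) = b 4 →
      mu M S (b 3) (b 2) = mu M S (b 0) (b 4)) <|
    (fd_mu (Sum.inr 0) (Sum.inr 1) (Sum.inr 3)).imp
      ((fd_mu (Sum.inr 1) (Sum.inr 2) (Sum.inr 4)).imp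
        (fd_mu2 (Sum.inr 3) (Sum.inr 2) (Sum.inr 0) (Sum.inr 4)))
  have h3 : FD (fun M S (_ : α → M) => ∀ b : Fin 5 → M,
      mu M S (b 0) (b 1) = b 4 → mu M S (b 4) (b 2) = mu M S (b 3) (b 3)) :=
    FD.all (P := fun M S v b => mu M S (b 0) (b 1) = b 4 →
      mu M S (b 4) (b 2) = mu M S (b 3) (b 3)) <|
    (fd_mu (Sum.inr 0) (Sum.inr 1) (Sum.inr 4)).imp
        (fd_mu2 (Sum.inr 4) (Sum.inr 2) (Sum.inr 3) (Sum.inr 3))
  have h4 : FD (fun M S (_ : α → M) => ∀ b : Fin 5 → M,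
      mu M S (b 0) (b 1) = mu M S (b 4) (b 4) ∨ mu M S (b 2) (b 3) = mu M S (b 4) (b 4) ∨
        mu M S (b 0) (b 1) = mu M S (b 2) (b 3)) :=
    FD.all (P := fun M S v b => mu M S (b 0) (b 1) = mu M S (b 4) (b 4) ∨
      mu M S (b 2) (b 3) = mu M S (b 4) (b 4) ∨
        mu M S (b 0) (b 1) = mu M S (b 2) (b 3)) <|
    (fd_mu2 (Sum.inr 0) (Sum.inr 1) (Sum.inr 4) (Sum.inr 4)).or
      ((fd_mu2 (Sum.inr 2) (Sum.inr 3) (Sum.inr 4) (Sum.inr 4)).or
        (fd_mu2 (Sum.inr 0) (Sum.inr 1) (Sum.inr 2) (Sum.inr 3)))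
  refine (h1.and (h2.and (h3.and h4))).congr fun M S v => ⟨?_, ?_⟩
  · rintro ⟨a1, a2, a3, a4⟩
    exact ⟨a1, fun x y z => a2 ![x, y, z, mu M S x y, mu M S y z] rfl rfl,
      fun x y z w => a3 ![x, y, z, w, mu M S x y] rfl, fun x y x' y' z => a4 ![x, y, x', y', z]⟩
  · rintro ⟨a1, a2, a3, a4⟩
    refine ⟨a1, fun b h1 h2 => ?_, fun b h1 => ?_, fun b => a4 _ _ _ _ _⟩
    · rw [← h1, ← h2]
      exact a2 _ _ _
    · rw [← h1]
      exact a3 _ _ _ _

/-- zero and the other product -/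
structure Nl {M : Type} (m : M → M → M) (z e : M) : Prop where
  ne : z ≠ e
  two : ∀ x y, m x y = z ∨ m x y = e
  comm : ∀ x y, m x y = m y x
  sq : ∀ x, m x x = z
  ann : ∀ x, m z x = z ∧ m e x = z

theorem fd_Nl (z e : α) : FD (fun M S v => Nl (mu M S) (v z) (v e)) := by
  have h1 : FD (fun M S (v : α → M) => ∀ x y, mu M S x y = v z ∨ mu M S x y = v e) :=
    FD.all1 (P := fun M S v x => ∀ y, mu M S x y = v z ∨ mu M S x y = v e) <|
    FD.all1 (P := fun M S v y => mu M S (v (Sum.inr ())) y = v (Sum.inl z) ∨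
      mu M S (v (Sum.inr ())) y = v (Sum.inl e)) <|
    (fd_mu (Sum.inl (Sum.inr ())) (Sum.inr ()) (Sum.inl (Sum.inl z))).or
      (fd_mu (Sum.inl (Sum.inr ())) (Sum.inr ()) (Sum.inl (Sum.inl e)))
  have h2 : FD (fun M S (_ : α → M) => ∀ x y, mu M S x y = mu M S y x) :=
    FD.all1 (P := fun M S v x => ∀ y, mu M S x y = mu M S y x) <|
    FD.all1 (P := fun M S v y => mu M S (v (Sum.inr ())) y = mu M S y (v (Sum.inr ()))) <|
    fd_mu2 (Sum.inl (Sum.inr ())) (Sum.inr ()) (Sum.inr ()) (Sum.inl (Sum.inr ()))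
  have h3 : FD (fun M S (v : α → M) => ∀ x, mu M S x x = v z) :=
    FD.all1 (P := fun M S v x => mu M S x x = v z) <|
    fd_mu (Sum.inr ()) (Sum.inr ()) (Sum.inl z)
  have h4 : FD (fun M S (v : α → M) => ∀ x, mu M S (v z) x = v z ∧ mu M S (v e) x = v z) :=
    FD.all1 (P := fun M S v x => mu M S (v z) x = v z ∧ mu M S (v e) x = v z) <|
    (fd_mu (Sum.inl z) (Sum.inr ()) (Sum.inl z)).and (fd_mu (Sum.inl e) (Sum.inr ()) (Sum.inl z))
  refine ((FD.eq z e).not.and (h1.and (h2.and (h3.and h4)))).congr fun M S v => ?_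
  exact ⟨fun h => ⟨h.1, h.2.1, h.2.2.1, h.2.2.2.1, h.2.2.2.2⟩,
    fun h => ⟨h.ne, h.two, h.comm, h.sq, h.ann⟩⟩

end

/-- the interpreted relation -/
def rgm {M : Type} (T : LM.Structure M) (e : M) : {m : ℕ} → LP.Relations m → (Fin m → M) → Prop
  | _, RP.lt, u => mu M T (u 0) (u 1) = e

/-- the interpretation; the parameters are the zero and the other product -/
def IM : Itp LP LM Unit 1 Bool where
  dom _ M T p w := w 0 ≠ p false ∧ w 0 ≠ p true
  eqv _ _ _ _ _ w w' := w 0 = w' 0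
  rel R _ _ T p ws := rgm T (p true) R (fun i => ws i 0)
  fn f _ _ _ _ _ _ _ := nomatch f
  fd_dom _ _ p w := (FD.eq (w 0) (p false)).not.and (FD.eq (w 0) (p true)).not
  fd_eqv _ _ _ _ w w' := FD.eq (w 0) (w' 0)
  fd_rel {m} R _ {α} p ws := by
    cases R
    exact fd_mu (ws 0 0) (ws 1 0) (p true)
  fd_fn f _ _ _ _ _ _ := nomatch f

theorem rep_IM (M : Type) (T : LM.Structure M) (p : Bool → M) (X : Type) (T0 : LP.Structure X)
    (e : X → M) (he : Function.Injective e)
    (hI : ∀ x, (x ≠ p false ∧ x ≠ p true) ↔ ∃ y, e y = x)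
    (hr : ∀ x y, rl X T0 x y ↔ mu M T (e x) (e y) = p true) :
    Rep IM X T0 M T p (fun _ w x => w 0 = e x) := by
  refine ⟨fun x => ⟨(), fun _ => e x, rfl⟩, fun c w => ?_, ?_, ?_, ?_⟩
  · show (w 0 ≠ p false ∧ w 0 ≠ p true) ↔ _
    rw [hI]
    exact ⟨fun ⟨y, hy⟩ => ⟨y, hy.symm⟩, fun ⟨y, hy⟩ => ⟨y, hy.symm⟩⟩
  · intro c c' w w' x x' h1 h2
    show w 0 = w' 0 ↔ _
    rw [h1, h2]
    exact he.eq_iff
  · intro m R cs ws xs h1
    have e1 : (fun i => ws i 0) = fun i => e (xs i) := funext h1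
    show rgm T (p true) R (fun i => ws i 0) ↔ _
    rw [e1]
    cases R
    have := hr (xs 0) (xs 1)
    refine (this.symm).trans ?_
    have e2 : ![xs 0, xs 1] = xs := by
      funext t
      fin_cases t <;> rfl
    show @Structure.RelMap LP X T0 2 RP.lt ![xs 0, xs 1] ↔ _
    rw [e2]
  · intro m f
    exact nomatch f

/-- graphs -/
def Gr (M : Type) (r : M → M → Prop) : Prop := (∀ x, ¬ r x x) ∧ ∀ x y, r x y → r y x

open Classical in
/-- the semigroup of a graph -/
noncomputable def gm {X : Type} (r : X → X → Prop) : Bool ⊕ X → Bool ⊕ X → Bool ⊕ X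
  | Sum.inr x, Sum.inr y => if r x y then Sum.inl true else Sum.inl false
  | _, _ => Sum.inl false

theorem gm_inl {X : Type} (r : X → X → Prop) (b : Bool) (u : Bool ⊕ X) :
    gm r (Sum.inl b) u = Sum.inl false := by
  rcases u with u | u <;> rfl

theorem gm_inl' {X : Type} (r : X → X → Prop) (b : Bool) (u : Bool ⊕ X) :
    gm r u (Sum.inl b) = Sum.inl false := by
  rcases u with u | u <;> rfl

open Classical in
theorem gm_val {X : Type} (r : X → X → Prop) (u v : Bool ⊕ X) :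
    gm r u v = Sum.inl false ∨ gm r u v = Sum.inl true := by
  rcases u with u | u
  · exact Or.inl (gm_inl _ _ _)
  rcases v with v | v
  · exact Or.inl (gm_inl' _ _ _)
  · show (if r u v then (Sum.inl true : Bool ⊕ X) else Sum.inl false) = _ ∨
      (if r u v then (Sum.inl true : Bool ⊕ X) else Sum.inl false) = _
    by_cases h : r u v
    · rw [if_pos h]
      exact Or.inr rfl
    · rw [if_neg h]
      exact Or.inl rfl

open Classical in
theorem gm_iff {X : Type} (r : X → X → Prop) (x y : X) :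
    gm r (Sum.inr x) (Sum.inr y) = Sum.inl true ↔ r x y := by
  show (if r x y then (Sum.inl true : Bool ⊕ X) else Sum.inl false) = _ ↔ _
  by_cases h : r x y
  · rw [if_pos h]
    exact ⟨fun _ => h, fun _ => rfl⟩
  · rw [if_neg h]
    exact ⟨fun h' => by simp at h', fun h' => absurd h' h⟩

theorem gm_Nl {X : Type} {r : X → X → Prop} (h : Gr X r) :
    Nl (gm r) (Sum.inl false) (Sum.inl true) := by
  have hc : ∀ u v, gm r u v = gm r v u := by
    rintro (u | u) (v | v)
    · rw [gm_inl, gm_inl]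
    · rw [gm_inl, gm_inl']
    · rw [gm_inl, gm_inl']
    · by_cases h1 : r u v
      · rw [(gm_iff r u v).2 h1, (gm_iff r v u).2 (h.2 _ _ h1)]
      · have h2 : ¬ r v u := fun h2 => h1 (h.2 _ _ h2)
        rw [(gm_val r (Sum.inr u) (Sum.inr v)).resolve_right (fun h3 => h1 ((gm_iff r u v).1 h3)),
          (gm_val r (Sum.inr v) (Sum.inr u)).resolve_right (fun h3 => h2 ((gm_iff r v u).1 h3))]
  refine ⟨by simp, gm_val r, hc, ?_, fun u => ⟨gm_inl _ _ _, gm_inl _ _ _⟩⟩
  rintro (u | u)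
  · exact gm_inl _ _ _
  · exact (gm_val r (Sum.inr u) (Sum.inr u)).resolve_right fun h3 => h.1 u ((gm_iff r u u).1 h3)

theorem Nl.nilSg {M : Type} {m : M → M → M} {z e : M} (h : Nl m z e) : NilSg m := by
  have h1 : ∀ x y w, m (m x y) w = z := by
    intro x y w
    rcases h.two x y with h2 | h2
    · rw [h2]
      exact (h.ann w).1
    · rw [h2]
      exact (h.ann w).2
  refine ⟨h.comm, fun x y w => ?_, fun x y w u => ?_, fun x y x' y' w => ?_⟩
  · rw [h1, h.comm x, h1]
  · rw [h1, h.sq]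
  · rw [h.sq]
    rcases h.two x y with h2 | h2
    · exact Or.inl h2
    · rcases h.two x' y' with h3 | h3
      · exact Or.inr (Or.inl h3)
      · exact Or.inr (Or.inr (h2.trans h3.symm))

theorem Nl.card {M : Type} [Finite M] {m : M → M → M} {z e : M} (h : Nl m z e) :
    Nat.card M = Nat.card {x // x ≠ z ∧ x ≠ e} + 2 := by
  classical
  have e1 : Nat.card M = Nat.card (Bool ⊕ {x // x ≠ z ∧ x ≠ e}) := by
    symm
    refine Nat.card_eq_of_bijective (Sum.elim (fun b => if b then e else z) Subtype.val) ⟨?_, ?_⟩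
    · rintro (b | ⟨x, hx⟩) (c | ⟨y, hy⟩) hxy <;> simp only [Sum.elim_inl, Sum.elim_inr] at hxy
      · rcases b with _ | _ <;> rcases c with _ | _
        · rfl
        · exact absurd hxy h.ne
        · exact absurd hxy.symm h.ne
        · rfl
      · rcases b with _ | _
        · exact absurd hxy.symm hy.1
        · exact absurd hxy.symm hy.2
      · rcases c with _ | _
        · exact absurd hxy hx.1
        · exact absurd hxy hx.2
      · subst hxy
        rfl
    · intro x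
      by_cases h1 : x = z
      · exact ⟨Sum.inl false, h1.symm⟩
      by_cases h2 : x = e
      · exact ⟨Sum.inl true, h2.symm⟩
      · exact ⟨Sum.inr ⟨x, h1, h2⟩, rfl⟩
  rw [e1, Nat.card_sum, Nat.card_eq_fintype_card (α := Bool), Fintype.card_bool]
  ring

/-- **Coding.** -/
theorem code_sg (φ : LP.Sentence) : ∃ χ : LM.Sentence,
    ∀ C : ∀ M : Type, LM.Structure M → Prop,
      (∀ (M : Type) (S : LM.Structure M), Finite M → NilSg (mu M S) → C M S) →
      ∀ n : ℕ, 0 < n → (n ∈ specC Gr φ ↔ 1 * n + (1 + 1) ∈ specIn C χ) := by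
  obtain ⟨Q, hQ1, hQ2⟩ := sent_tr IM φ
  obtain ⟨χ, hχ⟩ := FD.sent (L := LM) (P := fun M S => ∃ p : Bool → M,
      Nl (mu M S) (p false) (p true) ∧ Q M S p)
    (FD.ex (P := fun M S _ p => Nl (mu M S) (p false) (p true) ∧ Q M S p)
      ((fd_Nl (Sum.inr false) (Sum.inr true)).and
        (hQ1 (α := Empty ⊕ Bool) (fun b => Sum.inr b))))
  refine ⟨χ, fun C hC n hn => ⟨?_, ?_⟩⟩
  · rintro ⟨-, X, T0, hc, hd, hr⟩
    have : Finite X := Nat.finite_of_card_ne_zero (by omega)
    have hN := gm_Nl hd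
    refine ⟨by omega, Bool ⊕ X, ofm (gm (rl X T0)), ?_, hC _ _ inferInstance ?_,
      (hχ _ _).2 ⟨fun b => Sum.inl b, ?_, ?_⟩⟩
    · rw [Nat.card_sum, Nat.card_eq_fintype_card (α := Bool), Fintype.card_bool, hc]
      ring
    · rw [mu_ofm]
      exact hN.nilSg
    · rw [mu_ofm]
      exact hN
    · refine (hQ2 X T0 _ _ _ _ (rep_IM _ (ofm (gm (rl X T0))) (fun b => Sum.inl b) X T0 Sum.inr
        Sum.inr_injective (fun u => ?_) (fun x y => ?_))).2 hr
      · rcases u with b | x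
        · rcases b with _ | _
          · exact ⟨fun h => absurd rfl h.1, fun ⟨y, hy⟩ => by simp at hy⟩
          · exact ⟨fun h => absurd rfl h.2, fun ⟨y, hy⟩ => by simp at hy⟩
        · exact ⟨fun _ => ⟨x, rfl⟩, fun _ => ⟨by simp, by simp⟩⟩
      · rw [mu_ofm]
        exact (gm_iff _ _ _).symm
  · rintro ⟨-, M, T, hc, -, hr⟩
    have hfM : Finite M := Nat.finite_of_card_ne_zero (by omega)
    obtain ⟨p, hN, hq⟩ := (hχ M T).1 hr
    have hcard := hN.card
    refine ⟨hn, {x // x ≠ p false ∧ x ≠ p true}, ofl fun x y => mu M T x.1 y.1 = p true,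
      by omega, ⟨?_, ?_⟩, ?_⟩
    · rw [rl_ofl]
      intro x h
      rw [hN.sq] at h
      exact hN.ne h
    · rw [rl_ofl]
      intro x y h
      rw [hN.comm]
      exact h
    · exact (hQ2 _ _ M T p _ (rep_IM M T p _ _ Subtype.val Subtype.val_injective
        (fun x => ⟨fun hx => ⟨⟨x, hx⟩, rfl⟩, fun ⟨y, hy⟩ => hy ▸ y.2⟩)
        (fun x y => Iff.rfl))).1 hq

theorem sg_of_class (C : ∀ M : Type, LM.Structure M → Prop)
    (hC : ∀ (M : Type) (S : LM.Structure M), Finite M → NilSg (mu M S) → C M S)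
    (h : ∀ φ : LM.Sentence, Co (specIn C φ)) :
    ∀ (L : FirstOrder.Language.{0, 0}) (φ : L.Sentence), Co (spec φ) := by
  refine asser_of_class Gr ?_ fun φ => ?_
  · rintro M r - ⟨l, u, -, hr⟩ -
    exact ⟨fun x h => ((hr x x).1 h).1 rfl, fun x y h => by
      obtain ⟨h1, h2, h3⟩ := (hr x y).1 h
      exact (hr y x).2 ⟨h1.symm, h3, h2⟩⟩
  · obtain ⟨χ, hχ⟩ := code_sg φ
    exact co_red 1 1 (hχ C hC) (h χ)

theorem sg_main : (∀ (L : FirstOrder.Language.{0, 0}) (φ : L.Sentence), Co (spec φ)) ↔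
    ∀ φ : LM.Sentence, Co (specIn (fun M S => NilSg (mu M S)) φ) := by
  refine ⟨fun h φ => ?_, sg_of_class _ fun M S _ h => h⟩
  obtain ⟨χ, hχ⟩ := specIn_el (fun M S => NilSg (mu M S)) fd_nil φ
  rw [hχ]
  exact h LM χ

end Pool.Agent.TH565.OM
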