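import Pool.Agent.TH565.OM.LatMain
import Pool.Agent.TH565.OM.OrdM
import Pool.Agent.TH565.OM.Sgp

set_option autoImplicit false

/-! Rudimentary spectra over the three classes. -/

namespace Pool.Agent.TH565.OM

open FirstOrder FirstOrder.Language Pool.Agent.TH686.SP Pool.Agent.TH195.SG

theorem rud_red {A B : Set ℕ} (g : MvPolynomial (Fin 1) ℕ) (G : ℕ → ℕ)
    (hG : ∀ n, MvPolynomial.eval (fun _ => n) g = G n) (hA : ∀ n ∈ A, 0 < n)
    (h : ∀ n, 0 < n → (n ∈ A ↔ G n ∈ B)) (hB : Rud B) : Rud A := by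
  have e : A = {n | 0 < n} ∩ {n | MvPolynomial.eval (fun _ => n) g ∈ B} := by
    ext n
    rw [Set.mem_inter_iff, Set.mem_ofPred_eq, Set.mem_ofPred_eq, hG]
    exact ⟨fun h1 => ⟨hA n h1, (h n (hA n h1)).1 h1⟩, fun h1 => (h n h1.1).2 h1.2⟩
  rw [e]
  exact Rud.pos.inter (hB.poly g)

theorem rud_lin {A B : Set ℕ} (a b : ℕ) (hA : ∀ n ∈ A, 0 < n)
    (h : ∀ n, 0 < n → (n ∈ A ↔ b * n + (a + 1) ∈ B)) (hB : Rud B) : Rud A := by
  refine rud_red (MvPolynomial.C b * MvPolynomial.X 0 + MvPolynomial.C (a + 1)) _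
    (fun n => ?_) hA h hB
  simp only [map_add, map_mul, MvPolynomial.eval_C, MvPolynomial.eval_X]

/-- all spectra are rudimentary -/
def AllRud : Prop := ∀ (L : FirstOrder.Language.{0, 0}) (φ : L.Sentence), Rud (spec φ)

theorem lat_rud (C : ∀ M : Type, (M → M → Prop) → Prop)
    (hC : ∀ (M : Type) (r : M → M → Prop), Finite M → ModLat r → Dim2Le r → C M r)
    (h : ∀ φ : LP.Sentence, Rud (specC C φ)) : AllRud := by
  refine rud_main.2 fun φ => ?_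
  obtain ⟨ψ, hψ⟩ := code_L φ
  refine rud_red ((MvPolynomial.X 0 + 1) * (MvPolynomial.X 0 + 1) + MvPolynomial.X 0) _
    (fun n => ?_) (fun n hn => hn.1) (hψ C hC) (h ψ)
  simp only [map_add, map_mul, map_one, MvPolynomial.eval_X]

theorem lat_rud_main : AllRud ↔ ∀ φ : LP.Sentence, Rud (specC PML φ) := by
  refine ⟨fun h φ => ?_, lat_rud PML fun M r _ h1 h2 => ⟨h1, h2⟩⟩
  obtain ⟨χ, hχ⟩ := pml_spec φ
  rw [hχ]
  exact h LQ χ

theorem om_rud (C : ∀ M : Type, LQ.Structure M → Prop)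
    (hC : ∀ (M : Type) (S : LQ.Structure M), Finite M → OrdMatch (ra M S) (rb M S) → C M S)
    (h : ∀ φ : LQ.Sentence, Rud (specIn C φ)) : AllRud := by
  refine rud_main.2 fun φ => ?_
  obtain ⟨χ, hχ⟩ := code_om φ
  exact rud_lin 1 2 (fun n hn => hn.1) (hχ C hC) (h χ)

theorem om_rud_main : AllRud ↔
    ∀ φ : LQ.Sentence, Rud (specIn (fun M S => OrdMatch (ra M S) (rb M S)) φ) := by
  refine ⟨fun h φ => ?_, om_rud _ fun M S _ h => h⟩
  obtain ⟨χ, hχ⟩ := specIn_el (fun M S => OrdMatch (ra M S) (rb M S)) fd_om φ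
  rw [hχ]
  exact h LQ χ

theorem sg_rud (C : ∀ M : Type, LM.Structure M → Prop)
    (hC : ∀ (M : Type) (S : LM.Structure M), Finite M → NilSg (mu M S) → C M S)
    (h : ∀ φ : LM.Sentence, Rud (specIn C φ)) : AllRud := by
  refine rud_of_class Gr ?_ fun φ => ?_
  · rintro M r - ⟨l, u, -, hr⟩ -
    exact ⟨fun x h => ((hr x x).1 h).1 rfl, fun x y h => by
      obtain ⟨h1, h2, h3⟩ := (hr x y).1 h
      exact (hr y x).2 ⟨h1.symm, h3, h2⟩⟩
  · obtain ⟨χ, hχ⟩ := code_sg φ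
    exact rud_lin 1 1 (fun n hn => hn.1) (hχ C hC) (h χ)

theorem sg_rud_main : AllRud ↔
    ∀ φ : LM.Sentence, Rud (specIn (fun M S => NilSg (mu M S)) φ) := by
  refine ⟨fun h φ => ?_, sg_rud _ fun M S _ h => h⟩
  obtain ⟨χ, hχ⟩ := specIn_el (fun M S => NilSg (mu M S)) fd_nil φ
  rw [hχ]
  exact h LM χ

end Pool.Agent.TH565.OM
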